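import Pool.Agent.TH678.EL.Search2

/-!
# End-of-Line is a total search problem relative to every oracle
-/

set_option autoImplicit false

namespace Pool.Agent.TH678.EL

open Pool.Agent.NPC Pool.Agent.H620R2.Gauge Pool.Agent.H622R2

/-- `F A` is computed by one algorithm, for all oracles `A` -/
def UF (F : Oracle → List Bool → List Bool) : Prop := ∃ M : Alg, ∀ A x, M.out A x = some (F A x)

theorem UF.tt {Q : List Bool → List (List Bool)}
    {H : List Bool × List Bool → List Bool} (hQ : Poly Q) (hH : Poly H) :
    UF (fun A x => H (x, (Q x).map A)) := by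
  obtain ⟨q, hq⟩ := hQ.sz_le
  refine ⟨A2.ttAlg hQ hH (q.comp (Polynomial.C 4 * Polynomial.X + Polynomial.C 1)),
    fun A x => ?_⟩
  have h1 := length_lt_sz (Q x)
  have h2 : (Q x).length + 1 ≤
      (q.comp (Polynomial.C 4 * Polynomial.X + Polynomial.C 1)).eval x.length :=
    A2.sz_eval_le (h1.trans_le (hq x))
  have h3 := A2.tt_run hQ hH (q.comp (Polynomial.C 4 * Polynomial.X + Polynomial.C 1)) A x
    ((q.comp (Polynomial.C 4 * Polynomial.X + Polynomial.C 1)).eval x.length) 0 (Nat.zero_le _)
    (by omega)
  exact h3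

theorem UF.seq {F G : Oracle → List Bool → List Bool} (hF : UF F) (hG : UF G)
    {φ : List Bool × List Bool → List Bool} {ψ : List Bool × List Bool × List Bool → List Bool}
    (hφ : Poly φ) (hψ : Poly ψ) :
    UF (fun A x => ψ (x, F A x, G A (φ (x, F A x)))) := by
  obtain ⟨M, hM⟩ := hF
  obtain ⟨N, hN⟩ := hG
  obtain ⟨b, hb⟩ := A2.out_bound M
  obtain ⟨q, hq⟩ := hφ.sz_le
  set r : Polynomial ℕ := q.comp (Polynomial.C 4 * Polynomial.X + Polynomial.C 4 * b +
    Polynomial.C 3) with hr
  refine ⟨A2.seqAlg M N hφ hψ (M.p + N.p.comp r), fun A x => ?_⟩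
  have h1 := hM A x
  have h2 := hN A (φ (x, F A x))
  have h3 : (φ (x, F A x)).length ≤ r.eval x.length := by
    have h4 := length_lt_sz (φ (x, F A x))
    have h5 := hq (x, F A x)
    have h6 := hb A x (F A x) h1
    have h7 := sz_listBool_le x
    have h8 := sz_listBool_le (F A x)
    refine h4.le.trans (h5.trans ?_)
    rw [hr, Polynomial.eval_comp]
    apply eval_mono
    simp only [sz_pair, Polynomial.eval_add, Polynomial.eval_mul, Polynomial.eval_C,
      Polynomial.eval_X]
    omega
  refine A2.seq_run1 M N hφ hψ (M.p + N.p.comp r) A x (F A x) _ _ h2 _ [] rfl h1 _ ?_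
  have h9 := eval_mono N.p h3
  change (M.p + N.p.comp r).eval x.length ≥ _
  rw [Polynomial.eval_add, Polynomial.eval_comp]
  omega

theorem UF.of_poly {F : List Bool → List Bool} (hF : Poly F) : UF (fun _ => F) :=
  UF.tt (Q := fun _ => []) (H := fun p => F p.1) (NPC.Poly.const [])
    (Poly.comp hF (Poly.fst Poly.id))

theorem UF.comp {F G : Oracle → List Bool → List Bool} (hG : UF G) (hF : UF F) :
    UF (fun A x => G A (F A x)) :=
  UF.seq (φ := fun p => p.2) (ψ := fun p => p.2.2) hF hG (Poly.snd Poly.id)
    (Poly.snd (Poly.snd Poly.id))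

theorem UF.pair {F G : Oracle → List Bool → List Bool} (hF : UF F) (hG : UF G) :
    UF (fun A x => pairBits (F A x) (G A x)) :=
  UF.seq (φ := fun p => p.1) (ψ := fun p => pairBits p.2.1 p.2.2) hF hG (Poly.fst Poly.id)
    (H622R2.poly_pairBits (Poly.fst (Poly.snd Poly.id)) (Poly.snd (Poly.snd Poly.id)))

theorem UF.post {F : Oracle → List Bool → List Bool} (hF : UF F)
    {ψ : List Bool × List Bool → List Bool} (hψ : Poly ψ) : UF (fun A x => ψ (x, F A x)) :=
  UF.seq (φ := fun p => p.1) (ψ := fun p => ψ (p.1, p.2.1)) hF (UF.of_poly Poly.id)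
    (Poly.fst Poly.id) (hψ.comp (Poly.pair (Poly.fst Poly.id) (Poly.fst (Poly.snd Poly.id))))

/-! ### Every algorithm can be made total -/

/-- the next action -/
def totD (M : Alg) (y : List Bool) : List Bool :=
  if M.p.eval (unpair y).1.length ≤ (unpair y).2.length then [true] else M.D y

theorem poly_totD (M : Alg) : Poly (totD M) :=
  Poly.ite (Poly.decide_le ((UPoly.length (Poly.fst poly_unpair)).eval M.p).toPoly
    (Poly.length (Poly.snd poly_unpair))) (NPC.Poly.const _) (poly_of_polyTime M.poly)

/-- the total algorithm -/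
noncomputable def totAlg (M : Alg) : Alg where
  D := totD M
  poly := polyTime_of_poly_list (poly_totD M)
  p := M.p + 1

theorem tot_run (M : Alg) (A : Oracle) (x : List Bool) : ∀ (n : ℕ) (a : List Bool),
    a.length + n = M.p.eval x.length →
      (totAlg M).run A x (n + 1) a = some ((M.run A x n a).getD []) := by
  intro n
  induction n with
  | zero =>
    intro a ha
    have h1 : (totAlg M).D (pairBits x a) = [true] := by
      change totD M (pairBits x a) = _
      unfold totD
      rw [unpair_pairBits]
      exact if_pos (by dsimp only; omega)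
    rw [A2.run_succ, h1, if_neg (by simp)]
    rfl
  | succ n ih =>
    intro a ha
    have h1 : (totAlg M).D (pairBits x a) = M.D (pairBits x a) := by
      change totD M (pairBits x a) = _
      unfold totD
      rw [unpair_pairBits]
      exact if_neg (by dsimp only; omega)
    have h2 := A2.run_succ M A x n a
    have h3 := A2.run_succ (totAlg M) A x (n + 1) a
    rw [h1] at h3
    rw [h2, h3]
    split_ifs with h
    · exact ih _ (by rw [List.length_append, List.length_singleton]; omega)
    · rfl

theorem UF.run (M : Alg) : UF (fun A x => (M.out A x).getD []) := by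
  refine ⟨totAlg M, fun A x => ?_⟩
  unfold Alg.out
  change (totAlg M).run A x ((M.p + 1).eval x.length) [] = _
  rw [Polynomial.eval_add, Polynomial.eval_one]
  exact tot_run M A x _ [] (by simp)

/-! ### The verifier of End-of-Line -/

/-- make a string of length `n` -/
def norm (n : ℕ) (y : List Bool) : List Bool := (y ++ List.replicate n false).take n

theorem norm_length (n : ℕ) (y : List Bool) : (norm n y).length = n := by
  unfold norm
  rw [List.length_take, List.length_append, List.length_replicate]
  omega

theorem norm_eq {n : ℕ} {y : List Bool} (h : y.length = n) : norm n y = y := by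
  unfold norm
  rw [List.take_append_of_le_length (by omega), List.take_of_length_le (by omega)]

theorem zero_length (n : ℕ) : (zero n).length = n := by
  unfold zero
  rw [List.length_replicate]

/-- the check -/
def chk (n : ℕ) (w f2 f4 f5 f6 : List Bool) : Bool :=
  decide (w.length = n) && (!(decide (f5 = zero n) && !(decide (f6 = zero n))) ||
    (!(decide (f2 = w)) || (!(decide (w = zero n)) && !(decide (f4 = w)))))

/-- the normalised function -/
def TN (q : Polynomial ℕ) (F : Oracle → List Bool → List Bool) (A : Oracle) (z : List Bool) :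
    List Bool := norm (q.eval (unpair z).2.length) (F A z)

theorem uf_TN {F : Oracle → List Bool → List Bool} (hF : UF F) (q : Polynomial ℕ) :
    UF (TN q F) := by
  have hn : UPoly (fun p : List Bool × List Bool => q.eval (unpair p.1).2.length) :=
    (UPoly.length (Poly.snd (poly_unpair.comp (Poly.fst Poly.id)))).eval q
  exact UF.post (ψ := fun p => norm (q.eval (unpair p.1).2.length) p.2) hF
    (R1.poly_take (Poly.append (Poly.snd Poly.id) (poly_rep hn false)) hn)

/-- the verifier -/
def Vf (q : Polynomial ℕ) (F G : Oracle → List Bool → List Bool) (A : Oracle) (z : List Bool) :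
    List Bool :=
  [chk (q.eval (unpair z).2.length) (unpair z).1
    (TN q G A (pairBits (TN q F A z) (unpair z).2))
    (TN q F A (pairBits (TN q G A z) (unpair z).2))
    (TN q G A (pairBits (zero (q.eval (unpair z).2.length)) (unpair z).2))
    (TN q F A (pairBits (zero (q.eval (unpair z).2.length)) (unpair z).2))]

theorem uf_Vf {F G : Oracle → List Bool → List Bool} (hF : UF F) (hG : UF G) (q : Polynomial ℕ) :
    UF (Vf q F G) := by
  have hx : UF (fun _ z => (unpair z).2) := UF.of_poly (Poly.snd poly_unpair)
  have hz : UF (fun _ z => zero (q.eval (unpair z).2.length)) :=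
    UF.of_poly (poly_rep ((UPoly.length (Poly.snd poly_unpair)).eval q) false)
  have h1 := uf_TN hF q
  have h2 := uf_TN hG q
  have h3 := UF.comp h2 (UF.pair h1 hx)
  have h4 := UF.comp h1 (UF.pair h2 hx)
  have h5 := UF.comp h2 (UF.pair hz hx)
  have h6 := UF.comp h1 (UF.pair hz hx)
  have h7 := UF.pair h3 (UF.pair h4 (UF.pair h5 h6))
  have hn : UPoly (fun p : List Bool × List Bool => q.eval (unpair p.1).2.length) :=
    (UPoly.length (Poly.snd (poly_unpair.comp (Poly.fst Poly.id)))).eval q
  have hw : Poly (fun p : List Bool × List Bool => (unpair p.1).1) :=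
    Poly.fst (poly_unpair.comp (Poly.fst Poly.id))
  have hp : Poly (fun p : List Bool × List Bool => p.2) := Poly.snd Poly.id
  have hp2 := poly_unpair.comp hp
  have hp3 := poly_unpair.comp (Poly.snd hp2)
  have hp4 := poly_unpair.comp (Poly.snd hp3)
  have hz' := poly_rep hn false
  have h8 : Poly (fun p : List Bool × List Bool => [chk (q.eval (unpair p.1).2.length)
      (unpair p.1).1 (unpair p.2).1 (unpair (unpair p.2).2).1 (unpair (unpair (unpair p.2).2).2).1
      (unpair (unpair (unpair p.2).2).2).2]) := by
    unfold chk zero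
    exact Poly.cons (Poly.and (Poly.decide_eq (Poly.length hw) hn.toPoly)
      (Poly.or (Poly.not (Poly.and (Poly.decide_eq (Poly.fst hp4) hz')
        (Poly.not (Poly.decide_eq (Poly.snd hp4) hz'))))
      (Poly.or (Poly.not (Poly.decide_eq (Poly.fst hp2) hw))
        (Poly.and (Poly.not (Poly.decide_eq hw hz'))
          (Poly.not (Poly.decide_eq (Poly.fst hp3) hw)))))) (NPC.Poly.const [])
  have h9 := UF.post h7 h8
  have h10 : Vf q F G = fun A z => (fun p : List Bool × List Bool =>
      [chk (q.eval (unpair p.1).2.length)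
      (unpair p.1).1 (unpair p.2).1 (unpair (unpair p.2).2).1 (unpair (unpair (unpair p.2).2).2).1
      (unpair (unpair (unpair p.2).2).2).2]) (z, pairBits (TN q G A (pairBits (TN q F A z)
        (unpair z).2)) (pairBits (TN q F A (pairBits (TN q G A z) (unpair z).2)) (pairBits
        (TN q G A (pairBits (zero (q.eval (unpair z).2.length)) (unpair z).2))
        (TN q F A (pairBits (zero (q.eval (unpair z).2.length)) (unpair z).2))))) := by
    funext A z
    simp only [unpair_pairBits]
    rfl
  rw [h10]
  exact h9

theorem chk_iff (n : ℕ) (w f2 f4 f5 f6 : List Bool) : chk n w f2 f4 f5 f6 = true ↔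
    w.length = n ∧ (¬ (f5 = zero n ∧ f6 ≠ zero n) ∨ (f2 ≠ w ∨ (w ≠ zero n ∧ f4 ≠ w))) := by
  unfold chk
  simp only [Bool.and_eq_true, Bool.or_eq_true, Bool.not_eq_true', decide_eq_true_eq,
    Bool.and_eq_false_iff, decide_eq_false_iff_not, Bool.not_eq_false', ne_eq]
  constructor
  · rintro ⟨h1, h2⟩
    refine ⟨h1, ?_⟩
    rcases h2 with h2 | h2
    · left
      rintro ⟨h3, h4⟩
      rcases h2 with h2 | h2
      · exact h2 h3
      · exact h4 h2
    · exact Or.inr h2
  · rintro ⟨h1, h2⟩
    refine ⟨h1, ?_⟩
    rcases h2 with h2 | h2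
    · left
      by_cases h3 : f5 = zero n
      · right
        by_contra h4
        exact h2 ⟨h3, h4⟩
      · exact Or.inl h3
    · exact Or.inr h2

/-- some vertex is a solution -/
theorem exists_sol {n : ℕ} (S P : List Bool → List Bool)
    (hS : ∀ v : List Bool, v.length = n → (S v).length = n)
    (h0 : P (zero n) = zero n) (h1 : S (zero n) ≠ zero n) :
    ∃ w : List Bool, w.length = n ∧ P (S w) ≠ w := by
  by_contra hno
  push Not at hno
  have hfin : Finite {v : List Bool // v.length = n} :=
    (List.finite_length_eq Bool n).to_subtype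
  set s : {v : List Bool // v.length = n} → {v : List Bool // v.length = n} :=
    fun v => ⟨S v.1, hS v.1 v.2⟩ with hs
  have hinj : Function.Injective s := by
    intro u v h
    have h2 := congrArg (fun w => P w.1) h
    simp only [hs] at h2
    rw [hno u.1 u.2, hno v.1 v.2] at h2
    exact Subtype.ext h2
  obtain ⟨u, hu⟩ := (Finite.injective_iff_surjective.1 hinj) ⟨zero n, zero_length n⟩
  have h2 := congrArg Subtype.val hu
  simp only [hs] at h2
  have h3 := hno u.1 u.2
  rw [h2, h0] at h3
  rw [← h3] at h2
  exact h1 h2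

/-- **End-of-Line is easy if all total search problems are easy.** -/
theorem easy_of {A : Oracle} (h : ∀ (M : Alg) (q : Polynomial ℕ), (∀ B, Total M q B) →
    Solved M q A) : Easy A := by
  intro S P q hS hP
  obtain ⟨MS, hMS⟩ := hS
  obtain ⟨MP, hMP⟩ := hP
  obtain ⟨M, hM⟩ := uf_Vf (UF.run MS) (UF.run MP) q
  obtain ⟨h', h1, h2⟩ := h M q (by
    intro B x
    set n := q.eval x.length with hn
    by_cases hpr : TN q (fun A x => (MP.out A x).getD []) B (pairBits (zero n) x) = zero n ∧
        TN q (fun A x => (MS.out A x).getD []) B (pairBits (zero n) x) ≠ zero n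
    · obtain ⟨w, hw1, hw2⟩ := exists_sol (n := n)
        (fun v => TN q (fun A x => (MS.out A x).getD []) B (pairBits v x))
        (fun v => TN q (fun A x => (MP.out A x).getD []) B (pairBits v x))
        (fun v _ => by
          unfold TN
          rw [norm_length, unpair_pairBits]) hpr.1 hpr.2
      refine ⟨w, hw1.le, ?_⟩
      rw [hM]
      unfold Vf
      simp only [unpair_pairBits]
      rw [(chk_iff _ _ _ _ _ _).2 ⟨hw1, Or.inr (Or.inl hw2)⟩]
    · refine ⟨zero n, (zero_length n).le, ?_⟩
      rw [hM]
      unfold Vf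
      simp only [unpair_pairBits]
      rw [(chk_iff _ _ _ _ _ _).2 ⟨zero_length n, Or.inl hpr⟩])
  refine ⟨h', h1, fun x hx => ?_⟩
  obtain ⟨_, h3⟩ := h2 x
  rw [hM] at h3
  unfold Vf at h3
  simp only [unpair_pairBits, Option.some.injEq, List.cons.injEq, and_true] at h3
  rw [chk_iff] at h3
  obtain ⟨hl, hc⟩ := h3
  obtain ⟨p1, p2, p3⟩ := hx
  have eS : ∀ v : List Bool, v.length = q.eval x.length →
      TN q (fun A x => (MS.out A x).getD []) A (pairBits v x) = S (pairBits v x) := by
    intro v hv
    unfold TN
    dsimp only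
    rw [hMS, unpair_pairBits]
    exact norm_eq (p1 v hv).1
  have eP : ∀ v : List Bool, v.length = q.eval x.length →
      TN q (fun A x => (MP.out A x).getD []) A (pairBits v x) = P (pairBits v x) := by
    intro v hv
    unfold TN
    dsimp only
    rw [hMP, unpair_pairBits]
    exact norm_eq (p1 v hv).2
  rw [eP _ (zero_length _), eS _ (zero_length _), eS _ hl, eP _ hl, eP _ (p1 _ hl).1,
    eS _ (p1 _ hl).2] at hc
  refine ⟨hl, ?_⟩
  rcases hc with hc | hc
  · exact absurd ⟨p2, p3⟩ hc
  · exact hc

end Pool.Agent.TH678.EL
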