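import Pool.Agent.TH678.EL.Bad
import Pool.Agent.TH678.PC.Adv2

/-!
# More than polynomially many changes make End-of-Line hard
-/

set_option autoImplicit false

namespace Pool.Agent.TH678.EL

open Pool.Agent.NPC Pool.Agent.H620R2.Gauge Pool.Agent.H622R2 Finset Filter
open Pool.Agent.W900.CH (Close)
open Pool.Agent.TH678.PC (exists_stages exists_np2 card_adv out_agree exists_exp_le pow_ev)

open Classical in
/-- **Some labels are bad for every advice.** -/
theorem exists_x (M : Alg) (A : Oracle) (c : ℕ → List Bool) {m K P l : ℕ}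
    (hK : (2 * P + 1) * (l + 2) ≤ K) (hm : 2 * K * (P + 1) ^ 2 ≤ 2 ^ m) :
    ∃ x : Fin K → Fin (P + 1) → Fin (2 ^ m), ∀ α : List Bool, α.length ≤ l →
      ∃ k : Fin K, ¬ Rt A c M P x (pairBits (xk m c k.val) α) k := by
  by_contra hno
  push Not at hno
  have h1 : ((univ : Finset (Fin K → Fin (P + 1) → Fin (2 ^ m))).card : ℝ) ≤
      ∑ α ∈ (range (l + 1)).biUnion strsOf, ((univ.filter fun x : Fin K → Fin (P + 1) →
        Fin (2 ^ m) => ∀ k : Fin K, Rt A c M P x (pairBits (xk m c k.val) α) k).card : ℝ) := by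
    rw [← Nat.cast_sum, Nat.cast_le]
    refine le_trans (card_le_card ?_) card_biUnion_le
    intro x _
    obtain ⟨α, hα, h⟩ := hno x
    rw [mem_biUnion]
    refine ⟨α, ?_, mem_filter.2 ⟨mem_univ _, h⟩⟩
    rw [mem_biUnion]
    exact ⟨α.length, mem_range.2 (by omega), mem_strsOf α⟩
  have h2 : ∀ α ∈ (range (l + 1)).biUnion strsOf, ((univ.filter fun x : Fin K → Fin (P + 1) →
        Fin (2 ^ m) => ∀ k : Fin K, Rt A c M P x (pairBits (xk m c k.val) α) k).card : ℝ) ≤
      (1 / 2) ^ (l + 2) * Fintype.card (Fin K → Fin (P + 1) → Fin (2 ^ m)) := by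
    intro α _
    refine (many_lines (A := A) (c := c) (m := m) M (fun k => pairBits (xk m c k) α) hK).trans ?_
    apply mul_le_mul_of_nonneg_right _ (by positivity)
    apply pow_le_pow_left₀ (by positivity)
    have h3 : (2 : ℝ) * K * (P + 1) ^ 2 ≤ 2 ^ m := by exact_mod_cast hm
    have h4 : (0 : ℝ) < 2 ^ m := by positivity
    rw [← mul_div_assoc, div_le_iff₀ h4]
    linarith
  have h3 := h1.trans (Finset.sum_le_sum h2)
  rw [Finset.sum_const, nsmul_eq_mul, card_univ] at h3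
  have h4 : (0 : ℝ) < Fintype.card (Fin K → Fin (P + 1) → Fin (2 ^ m)) := by
    rw [Nat.cast_pos, Fintype.card_pos_iff]
    exact ⟨fun _ _ => ⟨0, Nat.two_pow_pos m⟩⟩
  have h5 : (((range (l + 1)).biUnion strsOf).card : ℝ) ≤ 2 ^ (l + 1) := by
    exact_mod_cast card_adv l
  have h6 : (2 : ℝ) ^ (l + 1) * (1 / 2) ^ (l + 2) = 1 / 2 := by
    rw [pow_succ (1 / 2 : ℝ) (l + 1), ← mul_assoc, ← mul_pow]
    norm_num
  have h7 : (((range (l + 1)).biUnion strsOf).card : ℝ) * ((1 / 2) ^ (l + 2) *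
      Fintype.card (Fin K → Fin (P + 1) → Fin (2 ^ m))) ≤
      1 / 2 * Fintype.card (Fin K → Fin (P + 1) → Fin (2 ^ m)) := by
    rw [← mul_assoc]
    apply mul_le_mul_of_nonneg_right _ h4.le
    have h8 : (0 : ℝ) ≤ (1 / 2) ^ (l + 2) := by positivity
    exact (mul_le_mul_of_nonneg_right h5 h8).trans (le_of_eq h6)
  linarith

/-! ### Locality -/

theorem blk_local {A A' : Oracle} {b u : List Bool} (hb : b.length ≤ 2 * u.length)
    (h : ∀ y : List Bool, y.length ≤ 9 * u.length → A' y = A y) : blk A' b u = blk A b u := by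
  unfold blk
  apply List.map_congr_left
  intro j hj
  rw [List.mem_range] at hj
  apply h
  rw [List.length_append, List.length_append, List.length_replicate]
  omega

theorem SF_local {A A' : Oracle} {x : List Bool}
    (h : ∀ y : List Bool, y.length ≤ 9 * (unpair x).1.length → A' y = A y) (w : List Bool) :
    SF A' (pairBits w x) = SF A (pairBits w x) ∧ PF A' (pairBits w x) = PF A (pairBits w x) := by
  rw [SF_pair, SF_pair, PF_pair, PF_pair, blk_local _ h]
  · exact ⟨rfl, rfl⟩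
  · rw [List.length_take]
    exact min_le_left _ _

/-- the algorithm fails on some length with every advice -/
def Rq5 (M : Alg) (l : Polynomial ℕ) (A : Oracle) : Prop :=
  ∃ n, ∀ α : List Bool, α.length ≤ l.eval n → ∃ x : List Bool, x.length = n ∧
    Promised (SF A) (PF A) n x ∧ SingleLine (SF A) (PF A) n x ∧
    ∀ w, M.out A (pairBits x α) = some w → ¬ Solves (SF A) (PF A) n x w

theorem forced5 (M : Alg) (l : Polynomial ℕ) : ∃ e n₁ : ℕ, ∀ n ≥ n₁, ∀ A : Oracle,
    ∃ (A' : Oracle) (b : ℕ) (D : Finset (List Bool)),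
      (∀ y : List Bool, y.length < n → A' y = A y) ∧ (∀ y ∉ D, A' y = A y) ∧ D.card ≤ n ^ e ∧
      ∀ A'' : Oracle, (∀ y : List Bool, y.length < b → A'' y = A' y) → Rq5 M l A'' := by
  classical
  set X' : Polynomial ℕ := Polynomial.C 4 * Polynomial.X + Polynomial.C 2 with hX'
  set L' : Polynomial ℕ := l.comp X' with hL'
  set Pp : Polynomial ℕ := M.p.comp (Polynomial.C 2 * X' + L' + 1) with hPp
  set Kp : Polynomial ℕ := (Polynomial.C 2 * Pp + 1) * (L' + Polynomial.C 2) with hKp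
  set Qp : Polynomial ℕ := Polynomial.C 2 * Kp * (Pp + Polynomial.C 2) ^ 2 *
    (Polynomial.C 6 * Polynomial.X + 1) with hQp
  obtain ⟨e, n₁, he⟩ := exists_exp_le Qp
  obtain ⟨n₂, hn₂⟩ := pow_ev e
  obtain ⟨r, hr⟩ := out_agree M
  refine ⟨e, n₁ + n₂ + 1, fun m hn A => ?_⟩
  have b1 := he m (by omega)
  have b2 := hn₂ m (by omega)
  obtain ⟨lv, hlv⟩ : ∃ lv, lv = L'.eval m := ⟨_, rfl⟩
  obtain ⟨P, hP⟩ : ∃ P, P = Pp.eval m := ⟨_, rfl⟩
  obtain ⟨K, hK⟩ : ∃ K, K = (2 * P + 1) * (lv + 2) := ⟨_, rfl⟩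
  have hQ : Qp.eval m = 2 * K * (P + 2) ^ 2 * (6 * m + 1) := by
    rw [hQp, hKp]
    simp only [Polynomial.eval_add, Polynomial.eval_mul, Polynomial.eval_C, Polynomial.eval_X,
      Polynomial.eval_one, Polynomial.eval_pow]
    rw [← hlv, ← hP, ← hK]
  rw [hQ] at b1
  have hK1 : 1 ≤ K := by
    rw [hK]
    exact Nat.one_le_iff_ne_zero.2 (Nat.mul_ne_zero (by omega) (by omega))
  have c1 : 2 * K * (P + 2) ^ 2 * (6 * m + 1) ≤ 2 ^ m := b1.trans b2
  have c2 : 2 * K * (P + 2) ^ 2 ≤ 2 ^ m :=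
    le_trans (Nat.le_mul_of_pos_right _ (by omega)) c1
  have c3 : 2 * K * (P + 1) ^ 2 ≤ 2 ^ m :=
    le_trans (Nat.mul_le_mul_left _ (Nat.pow_le_pow_left (by omega) 2)) c2
  have c4 : K ≤ 2 ^ m := by
    have : 1 ≤ (P + 1) ^ 2 := Nat.one_le_pow _ _ (by omega)
    nlinarith
  have c5 : P + 1 < 2 ^ m := by
    have h1 : (P + 2) ^ 2 ≤ 2 * K * (P + 2) ^ 2 := Nat.le_mul_of_pos_left _ (by omega)
    have h2 : P + 2 ≤ (P + 2) ^ 2 := Nat.le_self_pow (by norm_num) _
    omega
  choose c hc1 hc2 using fun k => exists_key A m (bitsOf m k)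
  obtain ⟨x, hx⟩ := exists_x M A c (m := m) (K := K) (P := P) (l := lv) (by rw [hK]) c3
  set A' : Oracle := chg A m K c (labK x) (fun _ => P + 1) with hA'
  set N : ℕ := 4 * m + 2 with hN
  have hNX : X'.eval m = N := by
    rw [hX', hN]
    simp only [Polynomial.eval_add, Polynomial.eval_mul, Polynomial.eval_C, Polynomial.eval_X]
  have hlN : l.eval N = lv := by
    rw [hlv, hL', Polynomial.eval_comp, hNX]
  have hPN : P = M.p.eval (2 * N + lv + 1) := by
    rw [hP, hPp, Polynomial.eval_comp]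
    simp only [Polynomial.eval_add, Polynomial.eval_mul, Polynomial.eval_C, Polynomial.eval_one]
    rw [← hlv, hNX]
  refine ⟨A', r.eval (2 * N + lv + 1) + 9 * m + 1, ChD m K (P + 1) (labK x), fun y hy => ?_,
    fun y hy => ?_, ?_, fun A'' hA'' => ?_⟩
  · apply chg_not
    intro h
    have := h.1
    omega
  · apply chg_not
    intro h
    exact hy (Cd_mem (fun k _ => le_rfl) h)
  · refine le_trans (ChD_card (P + 1)) ?_
    refine le_trans ?_ b1
    have h1 : P + 1 + 1 ≤ 2 * (P + 2) ^ 2 := by nlinarith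
    calc K * ((P + 1 + 1) * (6 * m + 1)) = K * (P + 1 + 1) * (6 * m + 1) := by ring
      _ ≤ K * (2 * (P + 2) ^ 2) * (6 * m + 1) :=
        Nat.mul_le_mul_right _ (Nat.mul_le_mul_left _ h1)
      _ = 2 * K * (P + 2) ^ 2 * (6 * m + 1) := by ring
  · refine ⟨N, fun α hα => ?_⟩
    rw [hlN] at hα
    obtain ⟨k, hk⟩ := hx α hα
    have hxl : (xk m c k.val).length = N := xk_length (hc1 _)
    have e1 : (unpair (xk m c k.val)).1 = bitsOf m k.val := by unfold xk; rw [unpair_pairBits]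
    have hline := isLine (A := A) (t := fun _ => P + 1) (f := labK x) (c := c) k.isLt c4
      (hc1 _) (hc2 k.val) (Nat.succ_pos P) c5
      (by rw [labK_eq]; unfold labF; rw [dif_neg (by omega)])
      (fun i => by rw [labK_eq]; exact labF_lt _ _)
    rw [← hA', ← hN] at hline
    have hloc := SF_local (A := A') (A' := A'') (x := xk m c k.val) (by
      intro y hy
      rw [e1, length_bitsOf] at hy
      exact hA'' y (by omega))
    have hline' := hline.congr (S' := SF A'') (P' := PF A'') (fun w => (hloc w).1)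
      (fun w => (hloc w).2)
    refine ⟨xk m c k.val, hxl, hline'.promised, hline'.single, fun w hw hsol => ?_⟩
    have h1 := hline'.sol hsol
    have h2 : M.out A'' (pairBits (xk m c k.val) α) = M.out A' (pairBits (xk m c k.val) α) := by
      apply hr
      intro y hy
      apply hA''
      rw [A2.length_pairBits, hxl] at hy
      have h3 : r.eval (2 * N + α.length + 1) ≤ r.eval (2 * N + lv + 1) := eval_mono _ (by omega)
      omega
    rw [h2] at hw
    apply hk
    unfold Rt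
    have h3 : M.p.eval (pairBits (xk m c k.val) α).length ≤ P := by
      rw [hPN, A2.length_pairBits, hxl]
      exact eval_mono _ (by omega)
    have h4 := M.run_mono A' _ w _ P [] h3 hw
    rw [← hA', h4, h1, labK_eq]

/-- **More than polynomially many changes suffice.** -/
theorem many_line {g : ℕ → ℝ}
    (hg : ¬ ∃ c : ℕ, ∀ᶠ n : ℕ in atTop, ∃ m ≥ n, g m ≤ (n : ℝ) ^ c) (O : Oracle) :
    ∃ A, Close g O A ∧ ∃ S P : List Bool → List Bool, IsFP A S ∧ IsFP A P ∧
      ∀ (h : List Bool → List Bool) (a : ℕ → List Bool) (p : Polynomial ℕ), IsFP A h →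
        (∀ n, (a n).length ≤ p.eval n) → ∃ x : List Bool, Promised S P x.length x ∧
          SingleLine S P x.length x ∧ ¬ Solves S P x.length x (h (pairBits x (a x.length))) := by
  classical
  push Not at hg
  have hg' : ∀ c n₀ : ℕ, ∃ n ≥ n₀, ∀ m ≥ n, (n : ℝ) ^ c < g m := by
    intro c n₀
    have h1 := hg c
    rw [frequently_atTop] at h1
    obtain ⟨n, hn, h2⟩ := h1 n₀
    exact ⟨n, hn, h2⟩
  have h0 : ∀ᶠ n : ℕ in atTop, 0 ≤ g n := by
    obtain ⟨n, _, h1⟩ := hg' 0 0
    filter_upwards [eventually_ge_atTop n] with m hm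
    have := h1 m hm
    rw [pow_zero] at this
    linarith
  obtain ⟨np, hnp⟩ := exists_np2
  obtain ⟨A, hA, hR⟩ := exists_stages (Rq := fun i => Rq5 (np i).1.1 (np i).2) h0
    (by
      intro j n₀ T A
      obtain ⟨e, n₁, h1⟩ := forced5 (np j).1.1 (np j).2
      obtain ⟨n, hn, h2⟩ := hg' (e + 1) (n₀ + n₁ + T + 1)
      obtain ⟨A', b, D, h3, h4, h5, h6⟩ := h1 n (by omega) A
      refine ⟨n, A', b, D, by omega, h3, h4, fun m hm => ?_, h6⟩
      refine le_trans ?_ (h2 m hm).le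
      have h7 : T + D.card ≤ n ^ (e + 1) := by
        have h8 : 1 ≤ n ^ e := Nat.one_le_iff_ne_zero.2 (pow_ne_zero _ (by omega))
        calc T + D.card ≤ T * n ^ e + n ^ e := by nlinarith
          _ = (T + 1) * n ^ e := by ring
          _ ≤ n * n ^ e := Nat.mul_le_mul_right _ (by omega)
          _ = n ^ (e + 1) := by ring
      exact_mod_cast h7) O
  refine ⟨A, hA, SF A, PF A, isFP_SF A, isFP_PF A, ?_⟩
  rintro h a p ⟨M, hM⟩ ha
  obtain ⟨j, hj⟩ := hnp ((M, 0), p)
  have h1 := hR j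
  simp only [hj] at h1
  obtain ⟨n, hn⟩ := h1
  obtain ⟨x, hx, hx1, hx2, hx3⟩ := hn (a n) (ha n)
  subst hx
  exact ⟨x, hx1, hx2, hx3 _ (hM _)⟩

end Pool.Agent.TH678.EL
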