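import Mathlib

/-!
# Counting: many independent searches
-/

set_option autoImplicit false

namespace Pool.Agent.TH678.EL

open Finset

section

variable {κ : Type*} [Fintype κ] [DecidableEq κ] {V : Type*} [Fintype V]

/-- averaging over one coordinate -/
theorem sum_update (F : (κ → V) → ℝ) (k : κ) :
    ∑ x : κ → V, ∑ v : V, F (Function.update x k v) = Fintype.card V * ∑ x : κ → V, F x := by
  have h : ∑ p : (κ → V) × V, F (Function.update p.1 k p.2) = ∑ p : (κ → V) × V, F p.1 := by
    refine Fintype.sum_bijective (fun p : (κ → V) × V => (Function.update p.1 k p.2, p.1 k)) ?_ _ _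
      (fun p => rfl)
    refine Function.Involutive.bijective ?_
    rintro ⟨x, v⟩
    simp
  rw [Fintype.sum_prod_type, Fintype.sum_prod_type] at h
  rw [h, Finset.mul_sum]
  refine Finset.sum_congr rfl fun x _ => ?_
  change ∑ _y : V, F x = _
  rw [Finset.sum_const, card_univ, nsmul_eq_mul]

open Classical in
/-- independent events -/
theorem prod_bound {S : Finset κ} {G : κ → (κ → V) → Prop} {ε : ℝ} (hε : 0 ≤ ε)
    (dep : ∀ k ∈ S, ∀ x y : κ → V, (∀ j, j ∉ S ∨ j = k → x j = y j) → (G k x ↔ G k y))
    (pr : ∀ k ∈ S, ∀ x : κ → V,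
      ((univ.filter fun v => G k (Function.update x k v)).card : ℝ) ≤ ε * Fintype.card V)
    (hV : 0 < Fintype.card V) :
    ∀ S' ⊆ S, ((univ.filter fun x : κ → V => ∀ k ∈ S', G k x).card : ℝ) ≤
      ε ^ S'.card * Fintype.card (κ → V) := by
  intro S'
  induction S' using Finset.induction_on with
  | empty =>
    intro _
    simp
  | insert a S' ha ih =>
    intro hS
    have haS : a ∈ S := hS (mem_insert_self _ _)
    have hS' : S' ⊆ S := fun j hj => hS (mem_insert_of_mem hj)
    have h1 := ih hS'
    have h2 := sum_update (fun x : κ → V => if ∀ k ∈ insert a S', G k x then (1 : ℝ) else 0) a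
    have h3 : ∀ x : κ → V, ∑ v : V, (if ∀ k ∈ insert a S', G k (Function.update x a v) then (1 : ℝ)
        else 0) ≤ (if ∀ k ∈ S', G k x then (1 : ℝ) else 0) * (ε * Fintype.card V) := by
      intro x
      have h4 : ∀ v, ∀ k ∈ S', (G k (Function.update x a v) ↔ G k x) := by
        intro v k hk
        apply dep k (hS' hk)
        intro j hj
        rw [Function.update_of_ne]
        rintro rfl
        rcases hj with h | h
        · exact h haS
        · rw [h] at ha
          exact ha hk
      by_cases h5 : ∀ k ∈ S', G k x
      · rw [if_pos h5, one_mul]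
        refine le_trans (le_of_eq ?_) (pr a haS x)
        rw [← Finset.sum_boole]
        refine Finset.sum_congr rfl fun v _ => ?_
        have h6 : (∀ k ∈ insert a S', G k (Function.update x a v)) ↔ G a (Function.update x a v) := by
          constructor
          · intro h
            exact h a (mem_insert_self _ _)
          · intro h k hk
            rcases mem_insert.1 hk with rfl | hk
            · exact h
            · exact (h4 v k hk).2 (h5 k hk)
        simp only [h6]
      · rw [if_neg h5, zero_mul]
        refine le_of_eq (Finset.sum_eq_zero fun v _ => ?_)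
        rw [if_neg]
        intro h
        apply h5
        intro k hk
        exact (h4 v k hk).1 (h k (mem_insert_of_mem hk))
    have h7 : (Fintype.card V : ℝ) * ∑ x : κ → V, (if ∀ k ∈ insert a S', G k x then (1 : ℝ) else 0) ≤
        (∑ x : κ → V, (if ∀ k ∈ S', G k x then (1 : ℝ) else 0)) * (ε * Fintype.card V) := by
      rw [← h2, Finset.sum_mul]
      exact Finset.sum_le_sum fun x _ => h3 x
    rw [Finset.sum_boole, Finset.sum_boole] at h7
    rw [card_insert_of_notMem ha, pow_succ]
    have hV' : (0 : ℝ) < Fintype.card V := by exact_mod_cast hV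
    have h8 : ((univ.filter fun x : κ → V => ∀ k ∈ insert a S', G k x).card : ℝ) ≤
        ((univ.filter fun x : κ → V => ∀ k ∈ S', G k x).card : ℝ) * ε := by
      have h9 : (Fintype.card V : ℝ) * ((univ.filter fun x : κ → V =>
          ∀ k ∈ insert a S', G k x).card : ℝ) ≤ Fintype.card V *
          (((univ.filter fun x : κ → V => ∀ k ∈ S', G k x).card : ℝ) * ε) := by
        refine h7.trans (le_of_eq ?_)
        ring
      exact le_of_mul_le_mul_left h9 hV'
    refine h8.trans ?_
    calc ((univ.filter fun x : κ → V => ∀ k ∈ S', G k x).card : ℝ) * ε ≤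
        (ε ^ S'.card * Fintype.card (κ → V)) * ε := mul_le_mul_of_nonneg_right h1 hε
      _ = ε ^ S'.card * ε * Fintype.card (κ → V) := by ring

set_option linter.unusedSectionVars false in
open Classical in
/-- an independent set in a directed graph with small degrees -/
theorem exists_indep {P : ℕ} {T : κ → Finset κ} (hT : ∀ k, (T k).card ≤ P) :
    ∀ (r : ℕ) (U : Finset κ), (2 * P + 1) * r ≤ U.card →
      ∃ S ⊆ U, S.card = r ∧ ∀ k ∈ S, ∀ j ∈ S, j ≠ k → j ∉ T k := by
  intro r
  induction r with
  | zero =>
    intro U _
    exact ⟨∅, empty_subset _, rfl, fun k hk => absurd hk (notMem_empty _)⟩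
  | succ r ih =>
    intro U hU
    have hne : U.Nonempty := by
      rw [← card_pos]
      have : (2 * P + 1) * (r + 1) = (2 * P + 1) * r + (2 * P + 1) := by ring
      omega
    have h1 : ∑ k ∈ U, (U.filter (fun j => k ∈ T j)).card ≤ ∑ k ∈ U, P := by
      have h2 : ∑ k ∈ U, (U.filter (fun j => k ∈ T j)).card =
          ∑ j ∈ U, (U.filter (fun k => k ∈ T j)).card := by
        simp only [Finset.card_filter]
        rw [Finset.sum_comm]
      rw [h2]
      refine Finset.sum_le_sum fun j _ => ?_
      refine le_trans (card_le_card ?_) (hT j)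
      intro k hk
      exact (mem_filter.1 hk).2
    obtain ⟨k, hk, h3⟩ := Finset.exists_le_of_sum_le hne h1
    set U' := U \ (insert k (T k ∪ U.filter (fun j => k ∈ T j))) with hU'
    have h4 : (insert k (T k ∪ U.filter (fun j => k ∈ T j))).card ≤ 2 * P + 1 := by
      refine (card_insert_le _ _).trans ?_
      have := card_union_le (T k) (U.filter (fun j => k ∈ T j))
      have := hT k
      omega
    have h5 : (2 * P + 1) * r ≤ U'.card := by
      have h6 := le_card_sdiff (insert k (T k ∪ U.filter (fun j => k ∈ T j))) U
      have : (2 * P + 1) * (r + 1) = (2 * P + 1) * r + (2 * P + 1) := by ring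
      rw [hU']
      omega
    obtain ⟨S, hS1, hS2, hS3⟩ := ih U' h5
    have hkS : k ∉ S := by
      intro h
      have := hS1 h
      rw [hU', mem_sdiff] at this
      exact this.2 (mem_insert_self _ _)
    refine ⟨insert k S, ?_, ?_, ?_⟩
    · intro j hj
      rcases mem_insert.1 hj with rfl | hj
      · exact hk
      · exact (mem_sdiff.1 (hS1 hj)).1
    · rw [card_insert_of_notMem hkS, hS2]
    · intro i hi j hj hij
      rcases mem_insert.1 hi with rfl | hi'
      · rcases mem_insert.1 hj with rfl | hj'
        · exact absurd rfl hij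
        · have := (mem_sdiff.1 (hS1 hj')).2
          intro h
          exact this (mem_insert_of_mem (mem_union_left _ h))
      · rcases mem_insert.1 hj with rfl | hj'
        · have h7 := mem_sdiff.1 (hS1 hi')
          intro h
          exact h7.2 (mem_insert_of_mem (mem_union_right _ (mem_filter.2 ⟨h7.1, h⟩)))
        · exact hS3 i hi' j hj' hij

open Classical in
/-- many searches are hardly all successful -/
theorem all_right {P r : ℕ} {T : (κ → V) → κ → Finset κ} {R : κ → (κ → V) → Prop} {ε : ℝ}
    (hε : 0 ≤ ε) (hκ : (2 * P + 1) * r ≤ Fintype.card κ) (hT : ∀ x k, (T x k).card ≤ P)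
    (hdep : ∀ k x y, (∀ j, j ∈ T x k ∨ j = k → x j = y j) → R k x → R k y)
    (hpr : ∀ k (x : κ → V),
      ((univ.filter fun v => R k (Function.update x k v)).card : ℝ) ≤ ε * Fintype.card V)
    (d : V) :
    ((univ.filter fun x : κ → V => ∀ k, R k x).card : ℝ) ≤
      (Fintype.card κ * ε) ^ r * Fintype.card (κ → V) := by
  have hV : 0 < Fintype.card V := Fintype.card_pos_iff.2 ⟨d⟩
  set G : Finset κ → κ → (κ → V) → Prop := fun S k x =>
    R k (fun j => if j ∈ S ∧ j ≠ k then d else x j) with hG
  have h1 : ∀ S : Finset κ, ((univ.filter fun x : κ → V => ∀ k ∈ S, G S k x).card : ℝ) ≤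
      ε ^ S.card * Fintype.card (κ → V) := by
    intro S
    refine prod_bound (S := S) (G := G S) hε ?_ ?_ hV S (Subset.refl _)
    · intro k hk x y hxy
      have : (fun j => if j ∈ S ∧ j ≠ k then d else x j) =
          fun j => if j ∈ S ∧ j ≠ k then d else y j := by
        funext j
        split_ifs with h
        · rfl
        · apply hxy
          by_cases h2 : j ∈ S
          · right
            by_contra h3
            exact h ⟨h2, h3⟩
          · exact Or.inl h2
      simp only [hG, this]
    · intro k hk x
      refine le_trans (le_of_eq ?_) (hpr k (fun j => if j ∈ S ∧ j ≠ k then d else x j))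
      apply congrArg
      apply congrArg
      apply Finset.filter_congr
      intro v _
      have : (fun j => if j ∈ S ∧ j ≠ k then d else Function.update x k v j) =
          Function.update (fun j => if j ∈ S ∧ j ≠ k then d else x j) k v := by
        funext j
        by_cases hj : j = k
        · subst hj
          rw [Function.update_self, if_neg (fun h => h.2 rfl), Function.update_self]
        · rw [Function.update_of_ne hj, Function.update_of_ne hj]
      simp only [hG, this]
  have h2 : (univ.filter fun x : κ → V => ∀ k, R k x) ⊆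
      (powersetCard r (univ : Finset κ)).biUnion
        (fun S => univ.filter fun x : κ → V => ∀ k ∈ S, G S k x) := by
    intro x hx
    rw [mem_filter] at hx
    obtain ⟨S, _, hS2, hS3⟩ := exists_indep (hT x) r univ (by rw [card_univ]; exact hκ)
    rw [mem_biUnion]
    refine ⟨S, mem_powersetCard.2 ⟨subset_univ _, hS2⟩, mem_filter.2 ⟨mem_univ _, ?_⟩⟩
    intro k hk
    refine hdep k x _ ?_ (hx.2 k)
    intro j hj
    rw [if_neg]
    rintro ⟨h3, h4⟩
    rcases hj with hj | hj
    · exact hS3 k hk j h3 h4 hj
    · exact h4 hj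
  have h3 : ((univ.filter fun x : κ → V => ∀ k, R k x).card : ℝ) ≤
      ∑ S ∈ powersetCard r (univ : Finset κ), ε ^ r * Fintype.card (κ → V) := by
    refine le_trans (Nat.cast_le.2 ((card_le_card h2).trans card_biUnion_le)) ?_
    rw [Nat.cast_sum]
    refine Finset.sum_le_sum fun S hS => ?_
    have := h1 S
    rw [(mem_powersetCard.1 hS).2] at this
    exact this
  refine h3.trans ?_
  rw [Finset.sum_const, card_powersetCard, nsmul_eq_mul, card_univ, mul_pow, mul_assoc]
  apply mul_le_mul_of_nonneg_right _ (by positivity)
  exact_mod_cast Nat.choose_le_pow _ _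

open Classical in
/-- a search along a line -/
theorem line_bound {L s : ℕ} {Seen : Fin L → (Fin L → V) → Finset V}
    (hs : ∀ i μ, (Seen i μ).card ≤ s)
    (hdep : ∀ i μ ν, (∀ j < i, μ j = ν j) → Seen i μ = Seen i ν)
    {Rt : (Fin L → V) → Prop} (hR : ∀ μ, Rt μ → ∃ i, μ i ∈ Seen i μ) :
    ((univ.filter fun μ : Fin L → V => Rt μ).card : ℝ) * Fintype.card V ≤
      L * s * Fintype.card (Fin L → V) := by
  have h1 : ((univ.filter fun μ : Fin L → V => Rt μ).card : ℝ) ≤
      ∑ i : Fin L, ((univ.filter fun μ : Fin L → V => μ i ∈ Seen i μ).card : ℝ) := by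
    rw [← Nat.cast_sum, Nat.cast_le]
    refine le_trans (card_le_card ?_) card_biUnion_le
    intro μ hμ
    rw [mem_filter] at hμ
    obtain ⟨i, hi⟩ := hR μ hμ.2
    rw [mem_biUnion]
    exact ⟨i, mem_univ _, mem_filter.2 ⟨mem_univ _, hi⟩⟩
  have h2 : ∀ i : Fin L, ((univ.filter fun μ : Fin L → V => μ i ∈ Seen i μ).card : ℝ) *
      Fintype.card V ≤ s * Fintype.card (Fin L → V) := by
    intro i
    have h3 := sum_update (fun μ : Fin L → V => if μ i ∈ Seen i μ then (1 : ℝ) else 0) i
    rw [Finset.sum_boole] at h3
    rw [mul_comm, ← h3]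
    have h4 : ∀ μ : Fin L → V, ∑ v : V, (if Function.update μ i v i ∈
        Seen i (Function.update μ i v) then (1 : ℝ) else 0) ≤ s := by
      intro μ
      have h5 : ∀ v : V, (if Function.update μ i v i ∈ Seen i (Function.update μ i v) then (1 : ℝ)
          else 0) = if v ∈ Seen i μ then (1 : ℝ) else 0 := by
        intro v
        rw [Function.update_self, hdep i (Function.update μ i v) μ (fun j hj => by
          rw [Function.update_of_ne (ne_of_lt hj)])]
      simp only [h5]
      rw [Finset.sum_boole]
      have h6 : (univ.filter fun v => v ∈ Seen i μ) = Seen i μ := by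
        ext v
        simp
      rw [h6]
      exact_mod_cast hs i μ
    refine (Finset.sum_le_sum fun μ _ => h4 μ).trans ?_
    rw [Finset.sum_const, card_univ, nsmul_eq_mul, mul_comm]
  calc ((univ.filter fun μ : Fin L → V => Rt μ).card : ℝ) * Fintype.card V ≤
      (∑ i : Fin L, ((univ.filter fun μ : Fin L → V => μ i ∈ Seen i μ).card : ℝ)) *
        Fintype.card V := mul_le_mul_of_nonneg_right h1 (by positivity)
    _ = ∑ i : Fin L, ((univ.filter fun μ : Fin L → V => μ i ∈ Seen i μ).card : ℝ) *
        Fintype.card V := Finset.sum_mul _ _ _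
    _ ≤ ∑ i : Fin L, (s * Fintype.card (Fin L → V) : ℝ) := Finset.sum_le_sum fun i _ => h2 i
    _ = L * s * Fintype.card (Fin L → V) := by
      rw [Finset.sum_const, card_univ, Fintype.card_fin, nsmul_eq_mul]
      ring

end

end Pool.Agent.TH678.EL
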