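import Pool.Agent.TH678.EL.Line2
import Pool.Agent.TH678.EL.Run
import Pool.Agent.TH678.EL.Comb

/-!
# No algorithm follows many lines
-/

set_option autoImplicit false

namespace Pool.Agent.TH678.EL

open Pool.Agent.NPC Pool.Agent.H620R2.Gauge Pool.Agent.H622R2 Finset

/-- the labels of a line -/
def labF {L m : ℕ} (μ : Fin L → Fin (2 ^ m)) (i : ℕ) : ℕ :=
  if h : 1 ≤ i ∧ i ≤ L then (μ ⟨i - 1, by omega⟩).val else 0

/-- the labels of the lines -/
def labK {K L m : ℕ} (x : Fin K → Fin L → Fin (2 ^ m)) (k i : ℕ) : ℕ :=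
  if h : k < K then labF (x ⟨k, h⟩) i else 0

theorem labF_lt {L m : ℕ} (μ : Fin L → Fin (2 ^ m)) (i : ℕ) : labF μ i < 2 ^ m := by
  unfold labF
  split_ifs
  · exact Fin.isLt _
  · exact Nat.two_pow_pos m

theorem labF_succ {L m : ℕ} (μ : Fin L → Fin (2 ^ m)) (i : Fin L) :
    labF μ (i.val + 1) = (μ i).val := by
  unfold labF
  rw [dif_pos ⟨by omega, by have := i.isLt; omega⟩]
  rfl

theorem labK_eq {K L m : ℕ} (x : Fin K → Fin L → Fin (2 ^ m)) (k : Fin K) :
    labK x k.val = labF (x k) := by
  funext i
  unfold labK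
  rw [dif_pos k.isLt]

section

variable {A : Oracle} {m K : ℕ} {c : ℕ → List Bool}

theorem chg_congr {f f' : ℕ → ℕ → ℕ} {t t' : ℕ → ℕ} {q : List Bool}
    (h : rgn m q < K → f (rgn m q) = f' (rgn m q) ∧ t (rgn m q) = t' (rgn m q)) :
    chg A m K c f t q = chg A m K c f' t' q := by
  classical
  by_cases hr : rgn m q < K
  · obtain ⟨h1, h2⟩ := h hr
    have h3 : Cd m K f t q ↔ Cd m K f' t' q := by
      unfold Cd
      rw [h1, h2]
    unfold chg
    rw [h1, h2]
    by_cases h4 : Cd m K f t q
    · rw [if_pos h4, if_pos (h3.1 h4)]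
    · rw [if_neg h4, if_neg (fun h => h4 (h3.2 h))]
  · rw [chg_not (fun h => hr h.2.2.2.1), chg_not (fun h => hr h.2.2.2.1)]

theorem cont_congr {c : List Bool} {f f' : ℕ → ℕ} {t i : ℕ} (hi : i ≤ t)
    (h : ∀ j ≤ t, f j = f' j) : cont m c f t i = cont m c f' t i := by
  unfold cont nm
  rw [h (i - 1) (by omega)]
  by_cases hl : i < t
  · rw [if_pos hl, h (i + 1) (by omega)]
  · rw [if_neg hl, h i hi]

theorem chg_trunc {f f' : ℕ → ℕ → ℕ} {t : ℕ → ℕ} (h : ∀ k, ∀ i ≤ t k, f k i = f' k i) :
    chg A m K c f t = chg A m K c f' t := by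
  classical
  funext q
  have h3 : Cd m K f t q ↔ Cd m K f' t q := by
    unfold Cd
    constructor
    · rintro ⟨h1, h2, h3, h4, h5, h6⟩
      exact ⟨h1, h2, h3, h4, h5, by rw [← h _ _ h5]; exact h6⟩
    · rintro ⟨h1, h2, h3, h4, h5, h6⟩
      exact ⟨h1, h2, h3, h4, h5, by rw [h _ _ h5]; exact h6⟩
  unfold chg
  by_cases h4 : Cd m K f t q
  · rw [if_pos h4, if_pos (h3.1 h4), cont_congr h4.2.2.2.2.1 (h (rgn m q))]
  · rw [if_neg h4, if_neg (fun h => h4 (h3.2 h))]

/-- longer lines -/
theorem chg_step {f : ℕ → ℕ → ℕ} {t : ℕ → ℕ} {k i : ℕ} {q : List Bool}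
    (h0 : ¬ (rgn m q = k ∧ psn m q = i ∧ lbl m q = f k i))
    (h1 : ¬ (rgn m q = k ∧ psn m q = i + 1 ∧ lbl m q = f k (i + 1))) :
    chg A m K c f (Function.update t k i) q = chg A m K c f (Function.update t k (i + 1)) q := by
  classical
  by_cases hr : rgn m q = k
  · have h3 : Cd m K f (Function.update t k i) q ↔ Cd m K f (Function.update t k (i + 1)) q := by
      unfold Cd
      rw [hr, Function.update_self, Function.update_self]
      constructor
      · rintro ⟨a1, a2, a3, a4, a5, a6⟩
        exact ⟨a1, a2, a3, a4, by omega, a6⟩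
      · rintro ⟨a1, a2, a3, a4, a5, a6⟩
        refine ⟨a1, a2, a3, a4, ?_, a6⟩
        by_contra hno
        have : psn m q = i + 1 := by omega
        exact h1 ⟨hr, this, by rw [← this]; exact a6⟩
    unfold chg
    by_cases h4 : Cd m K f (Function.update t k i) q
    · rw [if_pos h4, if_pos (h3.1 h4)]
      have h5 : psn m q < i := by
        have a5 := h4.2.2.2.2.1
        have a6 := h4.2.2.2.2.2
        rw [hr, Function.update_self] at a5
        rw [hr] at a6
        rcases Nat.lt_or_ge (psn m q) i with h | h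
        · exact h
        · exfalso
          have : psn m q = i := by omega
          exact h0 ⟨hr, this, by rw [← this]; exact a6⟩
      rw [hr, Function.update_self, Function.update_self]
      have h6 : cont m (c k) (f k) i (psn m q) = cont m (c k) (f k) (i + 1) (psn m q) := by
        unfold cont
        rw [if_pos h5, if_pos (by omega)]
      rw [h6]
    · rw [if_neg h4, if_neg (fun h => h4 (h3.2 h))]
  · apply chg_congr
    intro _
    rw [Function.update_of_ne hr, Function.update_of_ne hr]
    exact ⟨rfl, rfl⟩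

theorem lbl_vx {f : ℕ → ℕ} {i : ℕ} (hf : f i < 2 ^ m) : lbl m (vx m f i) = f i := by
  unfold lbl vx nm
  rw [List.append_assoc, List.drop_append_of_le_length (by rw [length_bitsOf]),
    List.drop_of_length_le (by rw [length_bitsOf]), List.nil_append,
    List.take_append_of_le_length (by rw [length_bitsOf]),
    List.take_of_length_le (by rw [length_bitsOf]), valB_bitsOf m _ hf]

/-- with the oracle of the lines `x` the algorithm finds the end of the line number `k` -/
def Rt (A : Oracle) (c : ℕ → List Bool) (M : Alg) (P : ℕ) (x : Fin K → Fin (P + 1) → Fin (2 ^ m))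
    (z : List Bool) (k : Fin K) : Prop :=
  M.run (chg A m K c (labK x) (fun _ => P + 1)) z P [] = some (vx m (labF (x k)) (P + 1))

/-- the algorithm asks a question about the region `k` -/
def Tc (A : Oracle) (c : ℕ → List Bool) (M : Alg) (P : ℕ) (x : Fin K → Fin (P + 1) → Fin (2 ^ m))
    (z : List Bool) (k : Fin K) : Prop :=
  ∃ q ∈ qset M (chg A m K c (labK x) (fun _ => P + 1)) z P [], rgn m q = k.val

open Classical in
/-- one line: few labels are good for the algorithm -/
theorem one_line (M : Alg) (z : List Bool) {P : ℕ} (x : Fin K → Fin (P + 1) → Fin (2 ^ m))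
    (k : Fin K) :
    ((univ.filter fun μ : Fin (P + 1) → Fin (2 ^ m) =>
      Rt A c M P (Function.update x k μ) z k).card : ℝ) ≤
      ((P + 1) ^ 2 / 2 ^ m) * Fintype.card (Fin (P + 1) → Fin (2 ^ m)) := by
  set X : (Fin (P + 1) → Fin (2 ^ m)) → ℕ → Oracle := fun μ i =>
    chg A m K c (labK (Function.update x k μ)) (Function.update (fun _ => P + 1) k.val i) with hX
  set Seen : Fin (P + 1) → (Fin (P + 1) → Fin (2 ^ m)) → Finset (Fin (2 ^ m)) := fun i μ =>
    univ.filter (fun r => (∃ q ∈ qset M (X μ i.val) z P [], lbl m q = r.val) ∨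
      ∃ w, M.run (X μ i.val) z P [] = some w ∧ lbl m w = r.val) with hSeen
  have hlk : ∀ μ : Fin (P + 1) → Fin (2 ^ m), labK (Function.update x k μ) k.val = labF μ := by
    intro μ
    rw [labK_eq, Function.update_self]
  have h1 := line_bound (V := Fin (2 ^ m)) (L := P + 1) (s := P + 1) (Seen := Seen)
    (Rt := fun μ => Rt A c M P (Function.update x k μ) z k) ?_ ?_ ?_
  · rw [Fintype.card_fin] at h1
    have h2 : (0 : ℝ) < 2 ^ m := by positivity
    rw [div_mul_eq_mul_div, le_div_iff₀ h2]
    push_cast at h1 ⊢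
    refine h1.trans (le_of_eq ?_)
    ring
  · -- few labels are seen
    intro i μ
    set F : Finset ℕ := (qset M (X μ i.val) z P []).image (lbl m) ∪
      (if h : ∃ w, M.run (X μ i.val) z P [] = some w then {lbl m h.choose} else ∅) with hF
    have hc1 : (Seen i μ).card ≤ F.card := by
      apply Finset.card_le_card_of_injOn (fun r => r.val)
      · intro r hr
        rw [mem_coe, hSeen, mem_filter] at hr
        rw [hF, mem_coe, mem_union]
        rcases hr.2 with ⟨q, hq, h⟩ | ⟨w, hw, h⟩
        · left
          exact mem_image.2 ⟨q, hq, h⟩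
        · right
          have hex : ∃ w, M.run (X μ i.val) z P [] = some w := ⟨w, hw⟩
          rw [dif_pos hex, mem_singleton]
          have h3 : hex.choose = w := Option.some.inj (hex.choose_spec.symm.trans hw)
          rw [h3]
          exact h.symm
      · intro r _ r' _ h
        exact Fin.ext h
    refine hc1.trans ((card_union_le _ _).trans ?_)
    have h3 := (card_image_le (s := qset M (X μ i.val) z P []) (f := lbl m)).trans
      (qset_card M _ z P [])
    have h4 : (if h : ∃ w, M.run (X μ i.val) z P [] = some w then {lbl m h.choose}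
        else (∅ : Finset ℕ)).card ≤ 1 := by
      split_ifs
      · rw [card_singleton]
      · rw [card_empty]
        exact Nat.zero_le _
    omega
  · -- the dependence
    intro i μ ν hμ
    have h3 : X μ i.val = X ν i.val := by
      rw [hX]
      apply chg_trunc
      intro k' j hj
      by_cases hk : k' = k.val
      · subst hk
        rw [Function.update_self] at hj
        rw [hlk, hlk]
        unfold labF
        by_cases h : 1 ≤ j ∧ j ≤ P + 1
        · rw [dif_pos h, dif_pos h]
          rw [hμ ⟨j - 1, by omega⟩ (by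
            rw [Fin.lt_def]
            dsimp only
            omega)]
        · rw [dif_neg h, dif_neg h]
      · unfold labK
        by_cases h : k' < K
        · rw [dif_pos h, dif_pos h]
          have hne : (⟨k', h⟩ : Fin K) ≠ k := fun e => hk (congrArg Fin.val e)
          rw [Function.update_of_ne hne, Function.update_of_ne hne]
        · rw [dif_neg h, dif_neg h]
    rw [hSeen]
    simp only [h3]
  · -- a good line is seen
    intro μ hμ
    unfold Rt at hμ
    rw [Function.update_self] at hμ
    by_contra hno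
    push Not at hno
    have hun : ∀ i : Fin (P + 1), (∀ q ∈ qset M (X μ i.val) z P [], lbl m q ≠ (μ i).val) ∧
        ∀ w, M.run (X μ i.val) z P [] = some w → lbl m w ≠ (μ i).val := by
      intro i
      have h3 := hno i
      rw [hSeen, mem_filter, not_and] at h3
      have h4 := h3 (mem_univ _)
      push Not at h4
      exact h4
    have h3 := line_run (M := M) (x := z) (X := X μ) (P := P)
      (B := fun i => {q | rgn m q = k.val ∧ psn m q = i ∧ lbl m q = labF μ i}) ?_ ?_
    · have h4 : X μ (P + 1) = chg A m K c (labK (Function.update x k μ)) (fun _ => P + 1) := by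
        rw [hX]
        dsimp only
        rw [Function.update_eq_self_iff.2 rfl]
      rw [h4, hμ] at h3
      have h5 := (hun ⟨P, Nat.lt_succ_self P⟩).2 _ h3.symm
      apply h5
      rw [lbl_vx (labF_lt _ _)]
      exact labF_succ μ ⟨P, Nat.lt_succ_self P⟩
    · intro i q hq hq'
      rw [hX]
      apply chg_step
      · rw [hlk]
        exact hq
      · rw [hlk]
        exact hq'
    · intro i hi q hq hmem
      have h5 := (hun ⟨i, by omega⟩).1 q hq
      apply h5
      rw [hmem.2.2]
      exact labF_succ μ ⟨i, by omega⟩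

open Classical in
/-- many lines: hardly any labels are good for the algorithm -/
theorem many_lines (M : Alg) (z : ℕ → List Bool) {P r : ℕ} (hK : (2 * P + 1) * r ≤ K) :
    ((univ.filter fun x : Fin K → Fin (P + 1) → Fin (2 ^ m) => ∀ k : Fin K,
      Rt A c M P x (z k.val) k).card : ℝ) ≤
      (K * ((P + 1) ^ 2 / 2 ^ m)) ^ r *
        Fintype.card (Fin K → Fin (P + 1) → Fin (2 ^ m)) := by
  have h1 := all_right (κ := Fin K) (V := Fin (P + 1) → Fin (2 ^ m)) (P := P) (r := r)
    (T := fun x k => univ.filter (fun k' : Fin K => Tc A c M P x (z k.val) k'))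
    (R := fun k x => Rt A c M P x (z k.val) k)
    (ε := (P + 1) ^ 2 / 2 ^ m) (by positivity) (by rw [Fintype.card_fin]; exact hK) ?_ ?_ ?_
    (fun _ => ⟨0, Nat.two_pow_pos m⟩)
  · rw [Fintype.card_fin] at h1
    convert h1
  · intro x k
    refine le_trans ?_ (qset_card M (chg A m K c (labK x) (fun _ => P + 1)) (z k.val) P [])
    refine le_trans ?_ (card_image_le (f := rgn m))
    apply Finset.card_le_card_of_injOn (fun r => r.val)
    · intro k' hk'
      rw [mem_coe, mem_filter] at hk'
      obtain ⟨q, hq, h⟩ := hk'.2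
      rw [mem_coe, mem_image]
      exact ⟨q, hq, h⟩
    · intro r _ r' _ h
      exact Fin.ext h
  · intro k x y hxy h
    have h2 : ∀ q ∈ qset M (chg A m K c (labK x) (fun _ => P + 1)) (z k.val) P [],
        chg A m K c (labK x) (fun _ => P + 1) q = chg A m K c (labK y) (fun _ => P + 1) q := by
      intro q hq
      apply chg_congr
      intro hr
      refine ⟨?_, rfl⟩
      have h3 := hxy ⟨rgn m q, hr⟩ (Or.inl (mem_filter.2 ⟨mem_univ _, q, hq, rfl⟩))
      have e1 := labK_eq x ⟨rgn m q, hr⟩
      have e2 := labK_eq y ⟨rgn m q, hr⟩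
      dsimp only at e1 e2
      rw [e1, e2, h3]
    unfold Rt at h ⊢
    rw [run_agree P [] h2, h, hxy k (Or.inr rfl)]
  · intro k x
    exact one_line (A := A) (c := c) M (z k.val) x k

end

end Pool.Agent.TH678.EL
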