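import Pool.Agent.TH678.EL.Inst
import Pool.Agent.H620R2.Gauge2.CoverE

/-!
# Lines in the changed oracle
-/

set_option autoImplicit false

namespace Pool.Agent.TH678.EL

open Pool.Agent.NPC Pool.Agent.H620R2.Gauge Pool.Agent.H622R2

/-! ### Digits -/

theorem bitsOf_valB : ∀ l : List Bool, bitsOf l.length (valB l) = l := by
  intro l
  induction l with
  | nil => rfl
  | cons b l ih =>
    rw [List.length_cons, bitsOf, valB_cons]
    have h1 : ((if b = true then 1 else 0) + 2 * valB l) / 2 = valB l := by
      cases b
      · simp
      · simp
        omega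
    have h2 : (((if b = true then 1 else 0) + 2 * valB l) % 2 == 1) = b := by
      cases b
      · simp
      · simp
    rw [h1, ih, h2]

theorem bitsOf_zero (m : ℕ) : bitsOf m 0 = List.replicate m false := by
  induction m with
  | zero => rfl
  | succ m ih => rw [bitsOf, Nat.zero_div, ih, List.replicate_succ]; rfl

theorem bitsOf_get : ∀ (m i j : ℕ), j < m → (bitsOf m i)[j]? = some (i.testBit j) := by
  intro m
  induction m with
  | zero => intro i j h; omega
  | succ m ih =>
    intro i j h
    rw [bitsOf]
    cases j with
    | zero =>
      rw [List.getElem?_cons_zero, Nat.testBit_zero]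
      rfl
    | succ j =>
      rw [List.getElem?_cons_succ, ih _ _ (by omega), Nat.testBit_succ]

/-! ### The changed oracle -/

/-- the position coded in the first `m` bits -/
def psn (m : ℕ) (y : List Bool) : ℕ := valB (y.take m)

/-- the label coded in the next `m` bits -/
def lbl (m : ℕ) (y : List Bool) : ℕ := valB ((y.drop m).take m)

/-- the region coded in the next `m` bits -/
def rgn (m : ℕ) (y : List Bool) : ℕ := valB ((y.drop (2 * m)).take m)

/-- the name of the block number `i` of the line with the labels `f` -/
def nm (m : ℕ) (f : ℕ → ℕ) (i : ℕ) : List Bool := bitsOf m i ++ bitsOf m (f i)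

/-- the content of the block number `i` if the line has length `t` -/
def cont (m : ℕ) (c : List Bool) (f : ℕ → ℕ) (t i : ℕ) : List Bool :=
  c ++ (nm m f (if i < t then i + 1 else i) ++ nm m f (i - 1))

/-- the condition for a changed string -/
def Cd (m K : ℕ) (f : ℕ → ℕ → ℕ) (t : ℕ → ℕ) (y : List Bool) : Prop :=
  3 * m ≤ y.length ∧ y.length < 9 * m + 1 ∧
    y.drop (3 * m) = List.replicate (y.length - 3 * m) true ∧ rgn m y < K ∧
    psn m y ≤ t (rgn m y) ∧ lbl m y = f (rgn m y) (psn m y)

open Classical in
/-- the changed oracle: `K` lines with the labels `f k` and the lengths `t k` -/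
noncomputable def chg (A : Oracle) (m K : ℕ) (c : ℕ → List Bool) (f : ℕ → ℕ → ℕ) (t : ℕ → ℕ) :
    Oracle := fun y =>
  if Cd m K f t y then
    ((cont m (c (rgn m y)) (f (rgn m y)) (t (rgn m y)) (psn m y))[y.length - 3 * m]?).getD false
  else A y

theorem nm_length (m : ℕ) (f : ℕ → ℕ) (i : ℕ) : (nm m f i).length = 2 * m := by
  unfold nm
  rw [List.length_append, length_bitsOf, length_bitsOf]
  ring

theorem cont_length {m : ℕ} {c : List Bool} (hc : c.length = 2 * m + 1) (f : ℕ → ℕ) (t i : ℕ) :
    (cont m c f t i).length = 6 * m + 1 := by
  unfold cont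
  rw [List.length_append, List.length_append, nm_length, nm_length, hc]
  ring

section

variable {A : Oracle} {m K : ℕ} {c : ℕ → List Bool} {f : ℕ → ℕ → ℕ} {t : ℕ → ℕ}

/-- the parts of an address -/
theorem adr_parts {b : List Bool} (hb : b.length = 2 * m) {k : ℕ} (hk : k < 2 ^ m) (j : ℕ) :
    (b ++ bitsOf m k ++ List.replicate j true).length = 3 * m + j ∧
    (b ++ bitsOf m k ++ List.replicate j true).drop (3 * m) = List.replicate j true ∧
    rgn m (b ++ bitsOf m k ++ List.replicate j true) = k ∧
    psn m (b ++ bitsOf m k ++ List.replicate j true) = valB (b.take m) ∧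
    lbl m (b ++ bitsOf m k ++ List.replicate j true) = valB (b.drop m) := by
  have h1 : (b ++ bitsOf m k).length = 3 * m := by
    rw [List.length_append, hb, length_bitsOf]
    ring
  refine ⟨?_, ?_, ?_, ?_, ?_⟩
  · rw [List.length_append, h1, List.length_replicate]
  · rw [List.drop_append_of_le_length (by omega), List.drop_of_length_le (by omega),
      List.nil_append]
  · unfold rgn
    rw [List.append_assoc, List.drop_append_of_le_length (by omega),
      List.drop_of_length_le (by omega), List.nil_append,
      List.take_append_of_le_length (by rw [length_bitsOf]),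
      List.take_of_length_le (by rw [length_bitsOf]), valB_bitsOf m k hk]
  · unfold psn
    rw [List.append_assoc, List.take_append_of_le_length (by omega)]
  · unfold lbl
    rw [List.append_assoc, List.drop_append_of_le_length (by omega),
      List.take_append_of_le_length (by rw [List.length_drop]; omega),
      List.take_of_length_le (by rw [List.length_drop]; omega)]

open Classical in
/-- the bits of a block of the changed oracle -/
theorem blk_chg {b : List Bool} (hb : b.length = 2 * m) {k : ℕ} (hk : k < K) (hK : K ≤ 2 ^ m)
    (hc : (c k).length = 2 * m + 1) :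
    blk (chg A m K c f t) b (bitsOf m k) =
      if valB (b.take m) ≤ t k ∧ valB (b.drop m) = f k (valB (b.take m)) then
        cont m (c k) (f k) (t k) (valB (b.take m)) else blk A b (bitsOf m k) := by
  have hk2 : k < 2 ^ m := lt_of_lt_of_le hk hK
  by_cases h : valB (b.take m) ≤ t k ∧ valB (b.drop m) = f k (valB (b.take m))
  · rw [if_pos h]
    apply List.ext_getElem?
    intro j
    unfold blk
    rw [length_bitsOf, List.getElem?_map]
    by_cases hj : j < 6 * m + 1
    · rw [List.getElem?_range hj, Option.map_some]
      obtain ⟨h1, h2, h3, h4, h5⟩ := adr_parts hb hk2 j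
      have hCd : Cd m K f t (b ++ bitsOf m k ++ List.replicate j true) := by
        unfold Cd
        rw [h1, h2, h3, h4, h5]
        refine ⟨by omega, by omega, ?_, hk, h.1, h.2⟩
        rw [Nat.add_sub_cancel_left]
      unfold chg
      rw [if_pos hCd, h1, h3, h4, Nat.add_sub_cancel_left]
      have hlt : j < (cont m (c k) (f k) (t k) (valB (b.take m))).length := by
        rw [cont_length hc]
        exact hj
      rw [List.getElem?_eq_getElem hlt]
      rfl
    · rw [List.getElem?_eq_none (by rw [List.length_range]; omega), Option.map_none,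
        List.getElem?_eq_none (by rw [cont_length hc]; omega)]
  · rw [if_neg h]
    unfold blk
    apply List.map_congr_left
    intro j _
    obtain ⟨h1, h2, h3, h4, h5⟩ := adr_parts hb hk2 j
    unfold chg
    rw [if_neg]
    intro hCd
    unfold Cd at hCd
    rw [h3, h4, h5] at hCd
    exact h hCd.2.2.2.2

/-- the changed strings -/
def ChD (m K L : ℕ) (f : ℕ → ℕ → ℕ) : Finset (List Bool) :=
  (Finset.range K ×ˢ (Finset.range (L + 1) ×ˢ Finset.range (6 * m + 1))).image
    (fun p => nm m (f p.1) p.2.1 ++ bitsOf m p.1 ++ List.replicate p.2.2 true)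

theorem ChD_card (L : ℕ) : (ChD m K L f).card ≤ K * ((L + 1) * (6 * m + 1)) := by
  unfold ChD
  refine Finset.card_image_le.trans ?_
  rw [Finset.card_product, Finset.card_product, Finset.card_range, Finset.card_range,
    Finset.card_range]

theorem chg_not {y : List Bool} (hy : ¬ Cd m K f t y) : chg A m K c f t y = A y := by
  unfold chg
  rw [if_neg hy]

theorem Cd_mem {L : ℕ} (ht : ∀ k < K, t k ≤ L) {y : List Bool} (h : Cd m K f t y) :
    y ∈ ChD m K L f := by
  obtain ⟨h1, h2, h3, h4, h5, h6⟩ := h
  unfold ChD
  rw [Finset.mem_image]
  refine ⟨(rgn m y, psn m y, y.length - 3 * m), ?_, ?_⟩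
  · rw [Finset.mem_product, Finset.mem_product, Finset.mem_range, Finset.mem_range,
      Finset.mem_range]
    have := ht _ h4
    exact ⟨h4, by dsimp only; omega, by dsimp only; omega⟩
  · dsimp only
    unfold nm
    rw [← h6, ← h3]
    unfold psn lbl rgn
    have e1 : (y.take m).length = m := by rw [List.length_take]; omega
    have e2 : ((y.drop m).take m).length = m := by
      rw [List.length_take, List.length_drop]; omega
    have e3 : ((y.drop (2 * m)).take m).length = m := by
      rw [List.length_take, List.length_drop]; omega
    have f1 := bitsOf_valB (y.take m)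
    have f2 := bitsOf_valB ((y.drop m).take m)
    have f3 := bitsOf_valB ((y.drop (2 * m)).take m)
    rw [e1] at f1
    rw [e2] at f2
    rw [e3] at f3
    rw [f1, f2, f3]
    have g1 : y.drop (2 * m) = (y.drop (2 * m)).take m ++ y.drop (3 * m) := by
      have := List.take_append_drop m (y.drop (2 * m))
      rw [List.drop_drop] at this
      rw [show 2 * m + m = 3 * m by ring] at this
      exact this.symm
    have g2 : y.drop m = (y.drop m).take m ++ y.drop (2 * m) := by
      have := List.take_append_drop m (y.drop m)
      rw [List.drop_drop] at this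
      rw [show m + m = 2 * m by ring] at this
      exact this.symm
    conv_rhs => rw [← List.take_append_drop m y, g2, g1]
    simp only [List.append_assoc]

end

end Pool.Agent.TH678.EL
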