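import Pool.Agent.TH678.EL.Line

/-!
# The instances in the changed oracle are single lines
-/

set_option autoImplicit false

namespace Pool.Agent.TH678.EL

open Pool.Agent.NPC Pool.Agent.H620R2.Gauge Pool.Agent.H622R2

/-- the graph of `x` is the line `v 0, ..., v L` -/
def IsLine (S P : List Bool → List Bool) (n : ℕ) (x : List Bool) (L m : ℕ)
    (v : ℕ → List Bool) : Prop :=
  0 < L ∧ L < 2 ^ m ∧ v 0 = zero n ∧
    (∀ i ≤ L, (v i).length = n ∧ ∀ j < m, (v i)[j]? = some (i.testBit j)) ∧
    P (pairBits (v 0) x) = v 0 ∧ S (pairBits (v L) x) = v L ∧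
    (∀ i < L, S (pairBits (v i) x) = v (i + 1) ∧ P (pairBits (v (i + 1)) x) = v i) ∧
    ∀ w : List Bool, w.length = n → (∀ i ≤ L, w ≠ v i) →
      S (pairBits w x) = w ∧ P (pairBits w x) = w

theorem IsLine.single {S P : List Bool → List Bool} {n : ℕ} {x : List Bool} {L m : ℕ}
    {v : ℕ → List Bool} (h : IsLine S P n x L m v) : SingleLine S P n x := ⟨L, m, v, h⟩

theorem IsLine.inj {S P : List Bool → List Bool} {n : ℕ} {x : List Bool} {L m : ℕ}
    {v : ℕ → List Bool} (h : IsLine S P n x L m v) {i j : ℕ} (hi : i ≤ L) (hj : j ≤ L)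
    (hij : v i = v j) : i = j := by
  obtain ⟨h1, h2, h3, h4, h5, h6, h7, h8⟩ := h
  apply Nat.eq_of_testBit_eq
  intro b
  by_cases hb : b < m
  · have e1 := (h4 i hi).2 b hb
    have e2 := (h4 j hj).2 b hb
    rw [hij, e2] at e1
    exact (Option.some.inj e1).symm
  · have hp : 2 ^ m ≤ 2 ^ b := Nat.pow_le_pow_right (by norm_num) (not_lt.1 hb)
    rw [Nat.testBit_lt_two_pow (by omega), Nat.testBit_lt_two_pow (by omega)]

theorem IsLine.promised {S P : List Bool → List Bool} {n : ℕ} {x : List Bool} {L m : ℕ}
    {v : ℕ → List Bool} (h : IsLine S P n x L m v) : Promised S P n x := by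
  have hinj := h.inj (i := 1) (j := 0)
  obtain ⟨h1, h2, h3, h4, h5, h6, h7, h8⟩ := h
  refine ⟨fun w hw => ?_, ?_, ?_⟩
  · by_cases hex : ∃ i ≤ L, w = v i
    · obtain ⟨i, hi, rfl⟩ := hex
      constructor
      · rcases Nat.lt_or_ge i L with hl | hl
        · rw [(h7 i hl).1]
          exact (h4 (i + 1) hl).1
        · have : i = L := by omega
          subst this
          rw [h6]
          exact hw
      · rcases Nat.eq_zero_or_pos i with h0 | h0
        · subst h0
          rw [h5]
          exact hw
        · obtain ⟨i, rfl⟩ : ∃ i', i = i' + 1 := ⟨i - 1, by omega⟩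
          rw [(h7 i (by omega)).2]
          exact (h4 i (by omega)).1
    · push Not at hex
      obtain ⟨e1, e2⟩ := h8 w hw hex
      rw [e1, e2]
      exact ⟨hw, hw⟩
  · rw [← h3]
    exact h5
  · rw [← h3, (h7 0 h1).1]
    intro h
    have := hinj (by omega) (by omega) h
    omega

theorem IsLine.sol {S P : List Bool → List Bool} {n : ℕ} {x : List Bool} {L m : ℕ}
    {v : ℕ → List Bool} (h : IsLine S P n x L m v) {w : List Bool} (hw : Solves S P n x w) :
    w = v L := by
  obtain ⟨h1, h2, h3, h4, h5, h6, h7, h8⟩ := h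
  obtain ⟨hw1, hw2⟩ := hw
  by_contra hne
  by_cases hex : ∃ i ≤ L, w = v i
  · obtain ⟨i, hi, rfl⟩ := hex
    have hl : i < L := by
      rcases Nat.lt_or_ge i L with hl | hl
      · exact hl
      · exfalso
        apply hne
        rw [le_antisymm hi hl]
    rcases hw2 with h9 | ⟨h9, h10⟩
    · apply h9
      rw [(h7 i hl).1, (h7 i hl).2]
    · rcases Nat.eq_zero_or_pos i with h0 | h0
      · subst h0
        exact h9 h3
      · obtain ⟨i, rfl⟩ : ∃ i', i = i' + 1 := ⟨i - 1, by omega⟩
        apply h10
        rw [(h7 i (by omega)).2, (h7 i (by omega)).1]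
  · push Not at hex
    obtain ⟨e1, e2⟩ := h8 w hw1 hex
    rcases hw2 with h9 | ⟨h9, h10⟩
    · apply h9
      rw [e1, e2]
    · apply h10
      rw [e2, e1]

theorem IsLine.congr {S P S' P' : List Bool → List Bool} {n : ℕ} {x : List Bool} {L m : ℕ}
    {v : ℕ → List Bool} (h : IsLine S P n x L m v)
    (hS : ∀ w, S' (pairBits w x) = S (pairBits w x))
    (hP : ∀ w, P' (pairBits w x) = P (pairBits w x)) : IsLine S' P' n x L m v := by
  obtain ⟨h1, h2, h3, h4, h5, h6, h7, h8⟩ := h
  refine ⟨h1, h2, h3, h4, by rw [hP]; exact h5, by rw [hS]; exact h6, fun i hi => ?_,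
    fun w hw hw2 => ?_⟩
  · rw [hS, hP]
    exact h7 i hi
  · rw [hS, hP]
    exact h8 w hw hw2

/-! ### The instances -/

variable {A : Oracle} {m K : ℕ} {c : ℕ → List Bool} {f : ℕ → ℕ → ℕ} {t : ℕ → ℕ}

/-- the instance number `k` -/
def xk (m : ℕ) (c : ℕ → List Bool) (k : ℕ) : List Bool := pairBits (bitsOf m k) (c k)

/-- the vertex number `i` of a line -/
def vx (m : ℕ) (f : ℕ → ℕ) (i : ℕ) : List Bool := nm m f i ++ List.replicate (2 * m + 2) false

theorem xk_length {k : ℕ} (hc : (c k).length = 2 * m + 1) : (xk m c k).length = 4 * m + 2 := by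
  unfold xk
  rw [A2.length_pairBits, length_bitsOf, hc]
  ring

theorem ok_iff {k : ℕ} {w B : List Bool} (hc : (c k).length = 2 * m + 1) :
    ok w (xk m c k) B = true ↔ w.length = 4 * m + 2 ∧
      w.drop (2 * m) = List.replicate (2 * m + 2) false ∧ B.take (2 * m + 1) = c k := by
  unfold ok
  have hx := xk_length (c := c) (k := k) hc
  have e1 : (unpair (xk m c k)).1 = bitsOf m k := by unfold xk; rw [unpair_pairBits]
  have e2 : (unpair (xk m c k)).2 = c k := by unfold xk; rw [unpair_pairBits]
  rw [e1, e2, length_bitsOf, hx, hc]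
  simp

theorem cont_take {c : List Bool} (hc : c.length = 2 * m + 1) (f : ℕ → ℕ) (t i : ℕ) :
    (cont m c f t i).take (2 * m + 1) = c := by
  unfold cont
  rw [List.take_append_of_le_length (by omega), List.take_of_length_le (by omega)]

theorem cont_S {c : List Bool} (hc : c.length = 2 * m + 1) (f : ℕ → ℕ) (t i : ℕ) :
    ((cont m c f t i).drop (2 * m + 1)).take (2 * m) = nm m f (if i < t then i + 1 else i) := by
  unfold cont
  rw [List.drop_append_of_le_length (by omega), List.drop_of_length_le (by omega),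
    List.nil_append, List.take_append_of_le_length (by rw [nm_length]),
    List.take_of_length_le (by rw [nm_length])]

theorem cont_P {c : List Bool} (hc : c.length = 2 * m + 1) (f : ℕ → ℕ) (t i : ℕ) :
    ((cont m c f t i).drop (4 * m + 1)).take (2 * m) = nm m f (i - 1) := by
  unfold cont
  have h1 : (c ++ (nm m f (if i < t then i + 1 else i) ++ nm m f (i - 1))) =
      (c ++ nm m f (if i < t then i + 1 else i)) ++ nm m f (i - 1) := by
    rw [List.append_assoc]
  have h2 : (c ++ nm m f (if i < t then i + 1 else i)).length = 4 * m + 1 := by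
    rw [List.length_append, hc, nm_length]
    ring
  rw [h1, List.drop_append_of_le_length (by omega), List.drop_of_length_le (by omega),
    List.nil_append, List.take_of_length_le (by rw [nm_length])]

/-- **The instances are single lines.** -/
theorem isLine {k : ℕ} (hk : k < K) (hK : K ≤ 2 ^ m) (hc : (c k).length = 2 * m + 1)
    (hA : ∀ b : List Bool, b.length = 2 * m → (blk A b (bitsOf m k)).take (2 * m + 1) ≠ c k)
    (ht : 0 < t k) (htm : t k < 2 ^ m) (hf0 : f k 0 = 0) (hf : ∀ i, f k i < 2 ^ m) :
    IsLine (SF (chg A m K c f t)) (PF (chg A m K c f t)) (4 * m + 2) (xk m c k) (t k) m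
      (vx m (f k)) := by
  have hvl : ∀ i, (vx m (f k) i).length = 4 * m + 2 := by
    intro i
    unfold vx
    rw [List.length_append, nm_length, List.length_replicate]
    ring
  have hvt : ∀ i, (vx m (f k) i).take (2 * m) = nm m (f k) i := by
    intro i
    unfold vx
    rw [List.take_append_of_le_length (by rw [nm_length]),
      List.take_of_length_le (by rw [nm_length])]
  have hvd : ∀ i, (vx m (f k) i).drop (2 * m) = List.replicate (2 * m + 2) false := by
    intro i
    unfold vx
    rw [List.drop_append_of_le_length (by rw [nm_length]),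
      List.drop_of_length_le (by rw [nm_length]), List.nil_append]
  have hnt : ∀ i, (nm m (f k) i).take m = bitsOf m i := by
    intro i
    unfold nm
    rw [List.take_append_of_le_length (by rw [length_bitsOf]),
      List.take_of_length_le (by rw [length_bitsOf])]
  have hnd : ∀ i, (nm m (f k) i).drop m = bitsOf m (f k i) := by
    intro i
    unfold nm
    rw [List.drop_append_of_le_length (by rw [length_bitsOf]),
      List.drop_of_length_le (by rw [length_bitsOf]), List.nil_append]
  have e1 : (unpair (xk m c k)).1 = bitsOf m k := by unfold xk; rw [unpair_pairBits]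
  -- the blocks of the line
  have hB : ∀ i ≤ t k, blk (chg A m K c f t) (nm m (f k) i) (bitsOf m k) =
      cont m (c k) (f k) (t k) i := by
    intro i hi
    have hi2 : i < 2 ^ m := by omega
    rw [blk_chg (nm_length _ _ _) hk hK hc, hnt, hnd, valB_bitsOf m i hi2,
      valB_bitsOf m _ (hf i), if_pos ⟨hi, rfl⟩]
  have hS : ∀ i ≤ t k, SF (chg A m K c f t) (pairBits (vx m (f k) i) (xk m c k)) =
      vx m (f k) (if i < t k then i + 1 else i) := by
    intro i hi
    rw [SF_pair, e1, length_bitsOf, hvt, hB i hi, if_pos ((ok_iff hc).2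
      ⟨hvl i, hvd i, cont_take hc _ _ _⟩), cont_S hc]
    rfl
  have hP : ∀ i ≤ t k, PF (chg A m K c f t) (pairBits (vx m (f k) i) (xk m c k)) =
      vx m (f k) (i - 1) := by
    intro i hi
    rw [PF_pair, e1, length_bitsOf, hvt, hB i hi, if_pos ((ok_iff hc).2
      ⟨hvl i, hvd i, cont_take hc _ _ _⟩), cont_P hc]
    rfl
  refine ⟨ht, htm, ?_, ?_, ?_, ?_, ?_, ?_⟩
  · unfold vx nm zero
    rw [hf0, bitsOf_zero, List.replicate_append_replicate, List.replicate_append_replicate]
    congr 1
    ring
  · intro i hi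
    refine ⟨hvl i, fun j hj => ?_⟩
    unfold vx nm
    rw [List.append_assoc, List.getElem?_append_left (by rw [length_bitsOf]; exact hj)]
    exact bitsOf_get m i j hj
  · exact hP 0 (Nat.zero_le _)
  · rw [hS (t k) le_rfl, if_neg (lt_irrefl _)]
  · intro i hi
    refine ⟨?_, ?_⟩
    · rw [hS i hi.le, if_pos hi]
    · rw [hP (i + 1) hi, Nat.add_sub_cancel]
  · intro w hw hne
    have hno : ¬ ok w (xk m c k) (blk (chg A m K c f t) (w.take (2 * (unpair (xk m c k)).1.length))
        (unpair (xk m c k)).1) = true := by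
      rw [e1, length_bitsOf, ok_iff hc]
      rintro ⟨_, h2, h3⟩
      have hwt : (w.take (2 * m)).length = 2 * m := by
        rw [List.length_take]
        omega
      rw [blk_chg hwt hk hK hc] at h3
      by_cases h4 : valB ((w.take (2 * m)).take m) ≤ t k ∧ valB ((w.take (2 * m)).drop m) =
          f k (valB ((w.take (2 * m)).take m))
      · apply hne _ h4.1
        unfold vx nm
        rw [← h4.2, ← h2]
        have g1 := bitsOf_valB ((w.take (2 * m)).take m)
        have g2 := bitsOf_valB ((w.take (2 * m)).drop m)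
        have g3 : ((w.take (2 * m)).take m).length = m := by
          rw [List.length_take, hwt]
          omega
        have g4 : ((w.take (2 * m)).drop m).length = m := by
          rw [List.length_drop, hwt]
          omega
        rw [g3] at g1
        rw [g4] at g2
        rw [g1, g2, List.take_append_drop, List.take_append_drop]
      · rw [if_neg h4] at h3
        exact hA _ hwt h3
    rw [SF_pair, PF_pair, if_neg hno, if_neg hno]
    exact ⟨rfl, rfl⟩

/-- some key does not occur -/
theorem exists_key (A : Oracle) (m : ℕ) (u : List Bool) : ∃ c : List Bool,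
    c.length = 2 * m + 1 ∧ ∀ b : List Bool, b.length = 2 * m →
      (blk A b u).take (2 * m + 1) ≠ c := by
  have h1 : ((Finset.range (2 ^ (2 * m))).image
      (fun j => (blk A (bitsOf (2 * m) j) u).take (2 * m + 1))).card <
      ((Finset.range (2 ^ (2 * m + 1))).image (bitsOf (2 * m + 1))).card := by
    have h2 : ((Finset.range (2 ^ (2 * m + 1))).image (bitsOf (2 * m + 1))).card =
        2 ^ (2 * m + 1) := by
      rw [Finset.card_image_of_injOn, Finset.card_range]
      intro i hi j hj hij
      rw [Finset.coe_range, Set.mem_Iio] at hi hj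
      exact Pool.Agent.H620R2.Gauge.bitsOf_inj hi hj hij
    rw [h2]
    refine lt_of_le_of_lt Finset.card_image_le ?_
    rw [Finset.card_range]
    exact Nat.pow_lt_pow_right (by norm_num) (by omega)
  obtain ⟨c, hc1, hc2⟩ := Finset.exists_mem_notMem_of_card_lt_card h1
  rw [Finset.mem_image] at hc1
  obtain ⟨i, _, rfl⟩ := hc1
  refine ⟨bitsOf (2 * m + 1) i, length_bitsOf _ _, fun b hb h => hc2 ?_⟩
  rw [Finset.mem_image]
  obtain ⟨j, hj, hj2⟩ := exists_bitsOf b
  rw [hb] at hj hj2
  exact ⟨j, Finset.mem_range.2 hj, by rw [hj2, h]⟩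

end Pool.Agent.TH678.EL
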