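import Pool.Agent.TH678.EL.Search
import Pool.Agent.TH678.EL.Defs
import Pool.Agent.H620R2.GaugeR.R1

/-!
# Total search problems near a robust oracle: the algorithm
-/

set_option autoImplicit false

namespace Pool.Agent.TH678.EL

open Pool.Agent.NPC Pool.Agent.H620R2.Gauge Pool.Agent.H622R2 Finset Filter
open Pool.Agent.W900.CH (Close dist finite_diff)
open Pool.Agent.TH678.PC (encL encL_inj encL_length corr corr_enc pair_inj dist_poly bool_ne)

theorem isFP_fst (A : Oracle) : IsFP A (fun s => (unpair s).1) :=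
  IsFP.of_poly (Poly.fst poly_unpair)

theorem isFP_snd (A : Oracle) : IsFP A (fun s => (unpair s).2) :=
  IsFP.of_poly (Poly.snd poly_unpair)

/-- the body of the loop -/
noncomputable def body (M : Alg) (q Bd : Polynomial ℕ) (O A : Oracle) (s : List Bool) :
    List Bool :=
  pairBits (unpair s).1 (GG M q Bd O (pairBits [true] (pairBits (unpair s).1
    (pairBits (unpair s).2 (pairBits (GG M q Bd O (pairBits [] s))
      (Tr M A (pairBits (GG M q Bd O (pairBits [] s)) (unpair s).1)))))))

theorem isFP_body {M : Alg} {q Bd : Polynomial ℕ} {O A : Oracle} (hG : IsFP A (GG M q Bd O)) :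
    IsFP A (body M q Bd O A) := by
  have h1 : IsFP A (fun s => GG M q Bd O (pairBits [] s)) :=
    IsFP.comp hG (IsFP.of_poly (poly_pairBits (NPC.Poly.const []) Poly.id))
  have h2 : IsFP A (fun s => Tr M A (pairBits (GG M q Bd O (pairBits [] s)) (unpair s).1)) :=
    IsFP.comp (isFP_Tr M A) (IsFP.pair h1 (isFP_fst A))
  have h3 := IsFP.pair (IsFP.of_poly (A := A) (F := fun _ => [true]) (NPC.Poly.const [true]))
    (IsFP.pair (isFP_fst A) (IsFP.pair (isFP_snd A) (IsFP.pair h1 h2)))
  exact IsFP.pair (isFP_fst A) (IsFP.comp hG h3)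

theorem body_pair (M : Alg) (q Bd : Polynomial ℕ) (O A : Oracle) (x α : List Bool) :
    body M q Bd O A (pairBits x α) = pairBits x (C2 M Bd O x α (C1 M q O (pairBits x α))
      (Tr M A (pairBits (C1 M q O (pairBits x α)) x))) := by
  unfold body GG
  simp only [unpair_pairBits, if_true]
  rw [if_neg (by simp)]

open Classical in
/-- **The search algorithm.** -/
theorem search {M : Alg} {q b Bd : Polynomial ℕ} {O A : Oracle}
    (hb3 : ∀ (x w a : List Bool), w.length ≤ q.eval x.length →
      a.length ≤ M.p.eval (pairBits w x).length → ∀ j, (qj M (pairBits w x) a j).length ≤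
        Bd.eval x.length)
    (hG : IsFP A (GG M q Bd O)) {d : Polynomial ℕ} (hd : ∀ m, dist O A m ≤ d.eval m)
    (hT : ∀ l : List (List Bool), (∀ y ∈ l, A y ≠ O y) → Total M q (corr (encL l) O)) :
    Solved M q A := by
  set Df : ℕ → Finset (List Bool) := fun m => (finite_diff O A m).toFinset with hDf
  have hDc : ∀ m, (Df m).card ≤ d.eval m := by
    intro m
    refine le_trans (le_of_eq ?_) (hd m)
    unfold Pool.Agent.W900.CH.dist
    rw [hDf, Set.ncard_eq_toFinset_card _ (finite_diff O A m)]
  have hDm : ∀ m y, y ∈ Df m ↔ y.length ≤ m ∧ A y ≠ O y := by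
    intro m y
    rw [hDf, Set.Finite.mem_toFinset]
    rfl
  set T : Polynomial ℕ := d.comp Bd + 1 with hTd
  set S := body M q Bd O A with hS
  set w : List Bool → List Bool → List Bool := fun x α => C1 M q O (pairBits x α) with hw
  -- a solution relative to the corrected oracle
  have hsol : ∀ (x : List Bool) (l : List (List Bool)), (∀ y ∈ l, A y ≠ O y) →
      (w x (encL l)).length ≤ q.eval x.length ∧
      M.out (corr (encL l) O) (pairBits (w x (encL l)) x) = some [true] := by
    intro x l hl
    have h1 := hT l hl x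
    have h2 : ∃ w, Sl M q O (pairBits x (encL l)) w := by
      obtain ⟨w, h3, h4⟩ := h1
      refine ⟨w, ?_⟩
      unfold Sl
      rw [unpair_pairBits]
      exact ⟨h3, h4⟩
    have h3 : w x (encL l) = h2.choose := by
      rw [hw]
      dsimp only
      unfold C1
      rw [dif_pos h2]
    have h4 := h2.choose_spec
    rw [← h3] at h4
    unfold Sl at h4
    rw [unpair_pairBits] at h4
    exact h4
  -- the invariant
  set Inv : List Bool → List (List Bool) → Prop := fun x l =>
    l.Nodup ∧ ∀ y ∈ l, y.length ≤ Bd.eval x.length ∧ A y ≠ O y with hInv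
  have hcard : ∀ x l, Inv x l → l.length ≤ d.eval (Bd.eval x.length) := by
    intro x l hl
    refine le_trans ?_ (hDc _)
    rw [← List.toFinset_card_of_nodup hl.1]
    apply card_le_card
    intro y hy
    rw [List.mem_toFinset] at hy
    exact (hDm _ _).2 (hl.2 y hy)
  have hstep : ∀ x l, Inv x l → (S (pairBits x (encL l)) = pairBits x (encL l) ∧
      M.out A (pairBits (w x (encL l)) x) = some [true]) ∨
      ∃ y, Inv x (y :: l) ∧ S (pairBits x (encL l)) = pairBits x (encL (y :: l)) := by
    intro x l hl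
    have hl' : ∀ y ∈ l, A y ≠ O y := fun y hy => (hl.2 y hy).2
    obtain ⟨s1, s2⟩ := hsol x l hl'
    rw [hS, body_pair]
    set a := Tr M A (pairBits (w x (encL l)) x) with ha
    have halen : a.length ≤ M.p.eval (pairBits (w x (encL l)) x).length := hist_len _ _ _ _
    have hget : ∀ j < a.length, a[j]? = some (A (qj M (pairBits (w x (encL l)) x) a j)) :=
      hist_get M A (pairBits (w x (encL l)) x) (M.p.eval (pairBits (w x (encL l)) x).length)
    by_cases hex : ∃ j, Wrong M Bd O x (encL l) (w x (encL l)) a j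
    · right
      refine ⟨qj M (pairBits (w x (encL l)) x) a hex.choose, ?_, ?_⟩
      · obtain ⟨h1, h2, h3⟩ := hex.choose_spec
        rw [hget _ h1] at h3
        have h4 : A (qj M (pairBits (w x (encL l)) x) a hex.choose) ≠
            corr (encL l) O (qj M (pairBits (w x (encL l)) x) a hex.choose) := fun h => h3 (by
          rw [← h])
        rw [corr_enc] at h4
        have h5 : qj M (pairBits (w x (encL l)) x) a hex.choose ∉ l := by
          intro h6
          rw [if_pos h6] at h4
          exact h4 (bool_ne (hl' _ h6))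
        rw [if_neg h5] at h4
        refine ⟨List.nodup_cons.2 ⟨h5, hl.1⟩, fun y hy => ?_⟩
        rcases List.mem_cons.1 hy with rfl | hy
        · exact ⟨h2, h4⟩
        · exact hl.2 y hy
      · unfold C2
        rw [dif_pos hex]
        rfl
    · left
      constructor
      · unfold C2
        rw [dif_neg hex]
      · rw [← s2]
        unfold Alg.out
        symm
        apply hist_run
        intro j hj
        by_contra hne
        apply hex
        exact ⟨j, hj, hb3 x _ a s1 halen j, hne⟩
  -- the iteration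
  have hit : ∀ x i, ∃ l, Inv x l ∧ l.length ≤ i ∧ S^[i] (pairBits x []) = pairBits x (encL l) ∧
      (l.length = i ∨ (S (pairBits x (encL l)) = pairBits x (encL l) ∧
        M.out A (pairBits (w x (encL l)) x) = some [true])) := by
    intro x i
    induction i with
    | zero =>
      refine ⟨[], ⟨List.nodup_nil, fun y hy => absurd hy List.not_mem_nil⟩, le_rfl, rfl,
        Or.inl rfl⟩
    | succ i ih =>
      obtain ⟨l, h1, h2, h3, h4⟩ := ih
      rw [Function.iterate_succ_apply', h3]
      rcases h4 with h4 | h4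
      · rcases hstep x l h1 with h5 | ⟨y, h5, h6⟩
        · exact ⟨l, h1, by omega, h5.1, Or.inr h5⟩
        · exact ⟨y :: l, h5, by rw [List.length_cons]; omega, h6,
            Or.inl (by rw [List.length_cons, h4])⟩
      · exact ⟨l, h1, by omega, h4.1, Or.inr h4⟩
  have hfin : ∀ x : List Bool, ∃ l, (∀ y ∈ l, A y ≠ O y) ∧
      S^[T.eval x.length] (pairBits x []) = pairBits x (encL l) ∧
      M.out A (pairBits (w x (encL l)) x) = some [true] := by
    intro x
    obtain ⟨l, h1, h2, h3, h4⟩ := hit x (T.eval x.length)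
    refine ⟨l, fun y hy => (h1.2 y hy).2, h3, ?_⟩
    rcases h4 with h4 | h4
    · exfalso
      have h5 := hcard x l h1
      rw [h4, hTd, Polynomial.eval_add, Polynomial.eval_comp, Polynomial.eval_one] at h5
      omega
    · exact h4.2
  have hloop := IsFP.loop (isFP_body hG) (g := fun x => pairBits x [])
    (poly_pairBits Poly.id (NPC.Poly.const [])) T
    (Polynomial.C 2 * Polynomial.X + T * (Polynomial.C 2 * Bd + 1) + 1) (by
      intro x i hi
      obtain ⟨l, h1, h2, h3, _⟩ := hit x i
      rw [h3, A2.length_pairBits]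
      have h4 := encL_length (Bd.eval x.length) l fun y hy => (h1.2 y hy).1
      simp only [Polynomial.eval_add, Polynomial.eval_mul, Polynomial.eval_C, Polynomial.eval_X,
        Polynomial.eval_one]
      have h5 : l.length * (2 * Bd.eval x.length + 1) ≤
          T.eval x.length * (2 * Bd.eval x.length + 1) := Nat.mul_le_mul_right _ (by omega)
      omega)
  have hC : IsFP A (fun s => GG M q Bd O (pairBits [] s)) :=
    IsFP.comp hG (IsFP.of_poly (F := fun s => pairBits [] s)
      (poly_pairBits (NPC.Poly.const []) Poly.id))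
  refine ⟨fun x => GG M q Bd O (pairBits [] (S^[T.eval x.length] (pairBits x []))),
    IsFP.comp (G := fun s => GG M q Bd O (pairBits [] s)) hC hloop, fun x => ?_⟩
  obtain ⟨l, h1, h2, h3⟩ := hfin x
  have h4 : GG M q Bd O (pairBits [] (S^[T.eval x.length] (pairBits x []))) = w x (encL l) := by
    rw [h2]
    unfold GG
    simp only [unpair_pairBits, if_true]
    rfl
  dsimp only
  rw [h4]
  exact ⟨(hsol x l h1).1, h3⟩

theorem exists_mq : ∃ g : ℕ → Alg × Polynomial ℕ, Function.Surjective g := by
  obtain ⟨np, hnp⟩ := Pool.Agent.TH678.PC.exists_np2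
  refine ⟨fun j => (np j).1, fun p => ?_⟩
  obtain ⟨j, hj⟩ := hnp (p, 0)
  exact ⟨j, by
    dsimp only
    rw [hj]⟩

theorem corr_close {g : ℕ → ℝ} {O A : Oracle} (hA : Close g O A) {l : List (List Bool)}
    (hl : ∀ y ∈ l, A y ≠ O y) : Close g O (corr (encL l) O) := by
  unfold Close at hA ⊢
  filter_upwards [hA] with n hn
  refine le_trans ?_ hn
  rw [Nat.cast_le]
  refine Set.ncard_le_ncard ?_ (finite_diff O A n)
  rintro y ⟨h1, h2⟩
  refine ⟨h1, ?_⟩
  rw [corr_enc] at h2
  by_cases h3 : y ∈ l
  · exact hl y h3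
  · rw [if_neg h3] at h2
    exact absurd rfl h2

/-- **Few changes: total search problems remain easy.** -/
theorem few_search {g : ℕ → ℝ}
    (hg : ∃ c : ℕ, ∀ᶠ n : ℕ in atTop, ∃ m ≥ n, g m ≤ (n : ℝ) ^ c) :
    ∃ O : Oracle, ∀ (M : Alg) (q : Polynomial ℕ), (∀ B, Close g O B → Total M q B) →
      ∀ A, Close g O A → Solved M q A := by
  obtain ⟨mq, hmq⟩ := exists_mq
  choose b Bd h1 h2 h3 using fun e => exists_bd (mq e).1 (mq e).2
  obtain ⟨O, hO⟩ := robust b (fun e => GG (mq e).1 (mq e).2 (Bd e)) h1 h2
  refine ⟨O, fun M q hT A hA => ?_⟩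
  obtain ⟨e, he⟩ := hmq (M, q)
  obtain ⟨d, hd⟩ := dist_poly hg hA
  have h4 := hO A ⟨d, hd⟩ e
  have h5 := h3 e
  rw [he] at h4 h5
  exact search (b := b e) h5 h4 hd fun l hl => hT _ (corr_close hA hl)

end Pool.Agent.TH678.EL
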